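import Mathlib

/-! LD-convergence and colored-neighborhood-convergence of graph sequences. -/

namespace Pool.Agent.P.MP_4503fd_co

open MeasureTheory Filter Topology
open scoped NNReal ENNReal

/-- the point mass as a finite measure -/
noncomputable def pt {X : Type} [MeasurableSpace X] (x : X) : FiniteMeasure X :=
  ⟨Measure.dirac x, inferInstance⟩

open Classical in
/-- the pair `(ρ, μ)` of empirical measures of a labelling `σ` of the vertices of `G` -/
noncomputable def emp {V : Type} [Fintype V] (G : SimpleGraph V) (σ : V → unitInterval) :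
    FiniteMeasure unitInterval × FiniteMeasure (unitInterval × unitInterval) :=
  ((Fintype.card V : ℝ≥0)⁻¹ • ∑ u, pt (σ u),
   (Fintype.card V : ℝ≥0)⁻¹ • ∑ p : V × V with G.Adj p.1 p.2, pt (σ p.1, σ p.2))

/-- `|V|⁻¹ log P((ρ, μ) ∈ A)` for independent uniform labels -/
noncomputable def rate {V : Type} [Fintype V] (G : SimpleGraph V)
    (A : Set (FiniteMeasure unitInterval × FiniteMeasure (unitInterval × unitInterval))) : EReal :=
  (((Fintype.card V : ℝ)⁻¹ : ℝ) : EReal) * ENNReal.log (volume {σ | emp G σ ∈ A})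

/-- LD-convergence: large deviations principle with speed `|V(G n)|` -/
def LDConv (V : ℕ → Type) [∀ n, Fintype (V n)] (G : ∀ n, SimpleGraph (V n)) : Prop :=
  ∃ I : FiniteMeasure unitInterval × FiniteMeasure (unitInterval × unitInterval) → ℝ≥0∞,
    LowerSemicontinuous I ∧ ∀ A,
      -((⨅ x ∈ interior A, I x : ℝ≥0∞) : EReal) ≤
        liminf (fun n => rate (G n) (interior A)) atTop ∧
      limsup (fun n => rate (G n) (closure A)) atTop ≤
        -((⨅ x ∈ closure A, I x : ℝ≥0∞) : EReal)

/-- rooted `k`-coloured graphs -/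
structure Rooted (k : ℕ) : Type 1 where
  V : Type
  G : SimpleGraph V
  c : V → Fin k
  root : V

/-- the rooted coloured balls of radius `r` around the roots are isomorphic -/
def SameBall (k r : ℕ) (x y : Rooted k) : Prop :=
  ∃ e : x.G.induce {u | x.G.edist x.root u ≤ r} ≃g y.G.induce {u | y.G.edist y.root u ≤ r},
    ∀ u, y.c (e u) = x.c u ∧ ((e u : y.V) = y.root ↔ (u : x.V) = x.root)

/-- isomorphism classes of rooted `k`-coloured balls of radius `r` -/
def Ball (k r : ℕ) : Type 1 := Quot (SameBall k r)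

/-- the law of the isomorphism class of the coloured `r`-ball around a uniform vertex -/
noncomputable def law {V : Type} [Fintype V] (G : SimpleGraph V) (k r : ℕ) (c : V → Fin k)
    (t : Ball k r) : ℝ :=
  (Fintype.card V : ℝ)⁻¹ * Set.ncard {v | Quot.mk (SameBall k r) ⟨V, G, c, v⟩ = t}

/-- total variation distance: the supremum of `|p(A) - q(A)|` over finite sets `A` -/
noncomputable def tv {T : Type 1} (p q : T → ℝ) : ℝ≥0∞ :=
  ⨆ A : Finset T, ENNReal.ofReal |∑ t ∈ A, p t - ∑ t ∈ A, q t|

/-- Hausdorff distance with respect to the total variation distance -/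
noncomputable def hd {T : Type 1} (P Q : Set (T → ℝ)) : ℝ≥0∞ :=
  max (⨆ p ∈ P, ⨅ q ∈ Q, tv p q) (⨆ q ∈ Q, ⨅ p ∈ P, tv p q)

/-- colored-neighborhood-convergence -/
def CNConv (V : ℕ → Type) [∀ n, Fintype (V n)] (G : ∀ n, SimpleGraph (V n)) : Prop :=
  ∀ k r : ℕ, 1 ≤ k → 1 ≤ r → ∃ Q : Set (Ball k r → ℝ),
    Tendsto (fun n => hd (Set.range (law (G n) k r)) Q) atTop (𝓝 0)

end Pool.Agent.P.MP_4503fd_co
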