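import Pool.Agent.P.MP_4503fd_co.Defs

/-! Energies and free energies of labelled graphs. -/

namespace Pool.Agent.P.MP_4503fd_co

open MeasureTheory Filter Topology Finset
open scoped NNReal ENNReal

abbrev UI := unitInterval
abbrev TF := C(UI, ℝ) × C(UI × UI, ℝ)
abbrev XX := FiniteMeasure UI × FiniteMeasure (UI × UI)

noncomputable def pair (f : TF) (x : XX) : ℝ :=
  ∫ t, f.1 t ∂(x.1 : Measure UI) + ∫ t, f.2 t ∂(x.2 : Measure (UI × UI))

lemma continuous_pair (f : TF) : Continuous (pair f) :=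
  ((FiniteMeasure.continuous_integral_continuousMap f.1).comp continuous_fst).add
    ((FiniteMeasure.continuous_integral_continuousMap f.2).comp continuous_snd)

variable {V : Type} [Fintype V]

open Classical in
noncomputable def en {S : Type} (G : SimpleGraph V) (a : S → ℝ) (b : S × S → ℝ) (c : V → S) : ℝ :=
  ∑ u, a (c u) + ∑ p : V × V with G.Adj p.1 p.2, b (c p.1, c p.2)

lemma integral_smul_sum_pt {X ι : Type} [MeasurableSpace X] [TopologicalSpace X] [BorelSpace X]
    [T2Space X] (f : X → ℝ) (r : ℝ≥0) (s : Finset ι) (x : ι → X) :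
    ∫ t, f t ∂((r • ∑ i ∈ s, pt (x i) : FiniteMeasure X) : Measure X) = r * ∑ i ∈ s, f (x i) := by
  rw [FiniteMeasure.toMeasure_smul, FiniteMeasure.toMeasure_sum, integral_smul_nnreal_measure,
    integral_finsetSum_measure (μ := fun i => (pt (x i) : Measure X))
      (fun i _ => integrable_dirac (by simp))]
  simp [pt, NNReal.smul_def]

lemma pair_emp (G : SimpleGraph V) (f : TF) (σ : V → UI) :
    pair f (emp G σ) = (Fintype.card V : ℝ)⁻¹ * en G f.1 f.2 σ := by
  unfold pair emp en
  rw [integral_smul_sum_pt, integral_smul_sum_pt, mul_add]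
  simp

lemma continuous_en (G : SimpleGraph V) (f : TF) : Continuous (en G f.1 f.2) := by
  unfold en
  fun_prop

lemma continuous_emp (G : SimpleGraph V) : Continuous (emp G) := by
  refine Continuous.prodMk ?_ ?_
  · rw [FiniteMeasure.continuous_iff_forall_continuousMap_continuous_integral]
    intro f
    simp only [integral_smul_sum_pt]
    fun_prop
  · rw [FiniteMeasure.continuous_iff_forall_continuousMap_continuous_integral]
    intro f
    simp only [integral_smul_sum_pt]
    fun_prop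

open Classical in
def Sparse (G : SimpleGraph V) (D : ℕ) : Prop :=
  #{p : V × V | G.Adj p.1 p.2} ≤ D * Fintype.card V

lemma sparse_of_degree {G : SimpleGraph V} {D : ℕ} (h : ∀ v, (G.neighborSet v).ncard ≤ D) :
    Sparse G D := by
  classical
  unfold Sparse
  rw [card_eq_sum_card_fiberwise (f := Prod.fst) (t := univ) (by simp), mul_comm, ← smul_eq_mul,
    ← card_univ, ← sum_const]
  refine sum_le_sum fun v _ => le_trans ?_ (h v)
  rw [Set.ncard_eq_toFinset_card']
  refine card_le_card_of_injOn Prod.snd ?_ ?_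
  · intro p hp
    simp only [coe_filter, mem_filter, mem_univ, true_and, Set.mem_ofPred_eq] at hp
    simpa [← hp.2] using hp.1
  · intro p hp q hq hpq
    simp only [coe_filter, mem_filter, mem_univ, true_and, Set.mem_ofPred_eq] at hp hq
    exact Prod.ext (hp.2.trans hq.2.symm) hpq

lemma mass_smul_sum_pt {X ι : Type} [MeasurableSpace X] (r : ℝ≥0) (s : Finset ι) (x : ι → X) :
    (r • ∑ i ∈ s, pt (x i) : FiniteMeasure X).mass = r * #s := by
  apply ENNReal.coe_injective
  rw [FiniteMeasure.ennreal_mass, FiniteMeasure.toMeasure_smul, FiniteMeasure.toMeasure_sum]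
  simp [pt]
  rfl

lemma emp_mem {G : SimpleGraph V} {D : ℕ} (h : Sparse G D) (σ : V → UI) :
    (emp G σ).1.mass ≤ 1 ∧ (emp G σ).2.mass ≤ D := by
  unfold emp
  simp only [mass_smul_sum_pt, card_univ]
  refine ⟨inv_mul_le_one, ?_⟩
  rcases Nat.eq_zero_or_pos (Fintype.card V) with h0 | h0
  · simp [h0]
  · rw [inv_mul_le_iff₀ (by exact_mod_cast h0), mul_comm]
    exact_mod_cast h

lemma en_sub_le {S S' : Type} {G : SimpleGraph V} {D : ℕ} (h : Sparse G D) {a : S → ℝ}
    {b : S × S → ℝ} {a' : S' → ℝ} {b' : S' × S' → ℝ} {c : V → S} {c' : V → S'} {ε : ℝ}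
    (hε : 0 ≤ ε) (h1 : ∀ u, |a (c u) - a' (c' u)| ≤ ε)
    (h2 : ∀ u v, |b (c u, c v) - b' (c' u, c' v)| ≤ ε) :
    |en G a b c - en G a' b' c'| ≤ Fintype.card V * ((1 + D) * ε) := by
  classical
  unfold en
  rw [add_sub_add_comm, ← sum_sub_distrib, ← sum_sub_distrib]
  refine (abs_add_le _ _).trans ?_
  have e1 := (abs_sum_le_sum_abs _ univ).trans (sum_le_sum fun u _ => h1 u)
  have e2 := (abs_sum_le_sum_abs (fun p : V × V => b (c p.1, c p.2) - b' (c' p.1, c' p.2))
    {p : V × V | G.Adj p.1 p.2}).trans (sum_le_sum fun p _ => h2 p.1 p.2)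
  rw [sum_const, nsmul_eq_mul] at e1 e2
  rw [card_univ] at e1
  have e3 : (#{p : V × V | G.Adj p.1 p.2} : ℝ) ≤ D * Fintype.card V := by exact_mod_cast h
  have := mul_le_mul_of_nonneg_right e3 hε
  linarith

lemma log_integral_exp_le {Ω : Type} [MeasurableSpace Ω] {μ : Measure Ω} [IsProbabilityMeasure μ]
    {h h' : Ω → ℝ} (i1 : Integrable (fun σ => Real.exp (h σ)) μ)
    (i2 : Integrable (fun σ => Real.exp (h' σ)) μ) {t : ℝ} (ht : ∀ σ, h σ ≤ h' σ + t) :
    Real.log (∫ σ, Real.exp (h σ) ∂μ) ≤ Real.log (∫ σ, Real.exp (h' σ) ∂μ) + t := by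
  rw [← Real.log_exp t, ← Real.log_mul (integral_exp_pos i2).ne' (Real.exp_pos t).ne',
    ← integral_mul_const]
  refine Real.log_le_log (integral_exp_pos i1) (integral_mono i1 (i2.mul_const _) fun σ => ?_)
  simp only [← Real.exp_add]
  exact Real.exp_le_exp.2 (ht σ)

lemma abs_log_integral_exp {Ω : Type} [MeasurableSpace Ω] {μ : Measure Ω} [IsProbabilityMeasure μ]
    {h h' : Ω → ℝ} (i1 : Integrable (fun σ => Real.exp (h σ)) μ)
    (i2 : Integrable (fun σ => Real.exp (h' σ)) μ) {t : ℝ} (ht : ∀ σ, |h σ - h' σ| ≤ t) :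
    |Real.log (∫ σ, Real.exp (h σ) ∂μ) - Real.log (∫ σ, Real.exp (h' σ) ∂μ)| ≤ t := by
  have e1 := log_integral_exp_le i1 i2 (t := t) fun σ => by linarith [(abs_le.1 (ht σ)).2]
  have e2 := log_integral_exp_le i2 i1 (t := t) fun σ => by linarith [(abs_le.1 (ht σ)).1]
  rw [abs_le]
  constructor <;> linarith

lemma integrable_exp_en (G : SimpleGraph V) (f : TF) :
    Integrable (fun σ : V → UI => Real.exp (en G f.1 f.2 σ)) :=
  (Real.continuous_exp.comp (continuous_en G f)).integrable_of_hasCompactSupport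
    (HasCompactSupport.of_compactSpace _)

/-- free energy -/
noncomputable def Lam (G : SimpleGraph V) (f : TF) : ℝ :=
  (Fintype.card V : ℝ)⁻¹ * Real.log (∫ σ : V → UI, Real.exp (en G f.1 f.2 σ))

lemma abs_inv_mul_le {n : ℕ} {x y t : ℝ} (ht : 0 ≤ t) (h : |x - y| ≤ n * t) :
    |(n : ℝ)⁻¹ * x - (n : ℝ)⁻¹ * y| ≤ t := by
  rcases Nat.eq_zero_or_pos n with h0 | h0
  · simp [h0, ht]
  · have : (0 : ℝ) < n := by exact_mod_cast h0
    rw [← mul_sub, abs_mul, abs_of_pos (inv_pos.2 this), inv_mul_le_iff₀ this]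
    exact h

lemma en_lip {G : SimpleGraph V} {D : ℕ} (h : Sparse G D) (f g : TF) (σ : V → UI) :
    |en G f.1 f.2 σ - en G g.1 g.2 σ| ≤ Fintype.card V * ((1 + D) * dist f g) := by
  refine en_sub_le h dist_nonneg (fun u => ?_) fun u v => ?_
  · exact (ContinuousMap.dist_apply_le_dist (f := f.1) (g := g.1) (σ u)).trans (le_max_left _ _)
  · exact (ContinuousMap.dist_apply_le_dist (f := f.2) (g := g.2) (σ u, σ v)).trans
      (le_max_right _ _)

lemma Lam_lip {G : SimpleGraph V} {D : ℕ} (h : Sparse G D) (f g : TF) :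
    |Lam G f - Lam G g| ≤ (1 + D) * dist f g :=
  abs_inv_mul_le (by positivity)
    (abs_log_integral_exp (integrable_exp_en G f) (integrable_exp_en G g) (en_lip h f g))

lemma Lam_zero (G : SimpleGraph V) : Lam G 0 = 0 := by
  simp [Lam, en]

/-! ### disjoint copies -/

def copies (m : ℕ) (F : SimpleGraph V) : SimpleGraph (Fin m × V) where
  Adj p q := p.1 = q.1 ∧ F.Adj p.2 q.2
  symm := ⟨fun _ _ h => ⟨h.1.symm, h.2.symm⟩⟩
  loopless := ⟨fun _ h => h.2.ne rfl⟩

lemma en_copies {S : Type} (m : ℕ) (F : SimpleGraph V) (a : S → ℝ) (b : S × S → ℝ)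
    (c : Fin m × V → S) : en (copies m F) a b c = ∑ i, en F a b (fun w => c (i, w)) := by
  classical
  unfold en
  rw [sum_add_distrib, Fintype.sum_prod_type]
  congr 1
  rw [sum_filter, Fintype.sum_prod_type, Fintype.sum_prod_type]
  refine sum_congr rfl fun i _ => ?_
  rw [sum_filter, Fintype.sum_prod_type]
  refine sum_congr rfl fun u _ => ?_
  rw [Fintype.sum_prod_type, sum_eq_single i]
  · simp [copies]
  · intro j _ hj
    simp [copies, hj.symm]
  · simp

omit [Fintype V] in
lemma degree_copies (m : ℕ) (F : SimpleGraph V) (p : Fin m × V) :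
    ((copies m F).neighborSet p).ncard = (F.neighborSet p.2).ncard := by
  rw [← Set.ncard_image_of_injective (F.neighborSet p.2) (f := fun w => (p.1, w))
    (fun x y h => by simpa using h)]
  congr 1
  ext ⟨i, w⟩
  simp [copies]
  tauto

lemma curry_mp (m : ℕ) : MeasurePreserving (MeasurableEquiv.curry (Fin m) V UI) volume volume := by
  refine ⟨(MeasurableEquiv.curry (Fin m) V UI).measurable, ?_⟩
  have := Measure.infinitePi_map_curry (fun (_ : Fin m) (_ : V) => (volume : Measure UI))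
  simp only [Measure.infinitePi_eq_pi] at this
  exact this

lemma Lam_copies {m : ℕ} (hm : 0 < m) (F : SimpleGraph V) (f : TF) :
    Lam (copies m F) f = Lam F f := by
  unfold Lam
  simp only [en_copies, Real.exp_sum]
  have := (curry_mp (V := V) m).integral_comp'
    (fun τ : Fin m → V → UI => ∏ i, Real.exp (en F f.1 f.2 (τ i)))
  rw [integral_fintype_prod_volume_eq_pow (fun σ : V → UI => Real.exp (en F f.1 f.2 σ))] at this
  erw [this]
  have hm' : (m : ℝ) ≠ 0 := by positivity
  simp only [Real.log_pow, Fintype.card_prod, Fintype.card_fin]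
  push_cast
  rw [mul_inv]
  field_simp

lemma prob_copies (m : ℕ) (A : Fin m → Set (V → UI)) :
    volume {σ : Fin m × V → UI | ∀ i, (fun w => σ (i, w)) ∈ A i} = ∏ i, volume (A i) := by
  rw [← volume_pi_pi, ← (curry_mp (V := V) m).measure_preimage_equiv]
  congr 1
  ext σ
  simp
  rfl

/-! ### discretisation of the labels -/

noncomputable def kap (k : ℕ) (t : UI) : Fin (k + 2) :=
  ⟨⌊(k + 1 : ℝ) * t⌋₊, by
    have : (k + 1 : ℝ) * t ≤ ((k + 1 : ℕ) : ℝ) := by
      push_cast
      exact mul_le_of_le_one_right (by positivity) t.2.2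
    have := Nat.floor_le_of_le this
    omega⟩

noncomputable def rep (k : ℕ) (i : Fin (k + 2)) : UI :=
  ⟨(i : ℕ) / (k + 1 : ℝ), by positivity, by
    rw [div_le_one (by positivity)]
    have : (i : ℕ) ≤ k + 1 := by omega
    exact_mod_cast this⟩

lemma dist_rep_kap (k : ℕ) (t : UI) : dist t (rep k (kap k t)) ≤ 1 / (k + 1 : ℝ) := by
  have hk : (0 : ℝ) < k + 1 := by positivity
  have h0 : 0 ≤ (k + 1 : ℝ) * t := mul_nonneg hk.le t.2.1
  have h1 := Nat.floor_le h0
  have h2 := Nat.lt_floor_add_one ((k + 1 : ℝ) * t)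
  change |(t : ℝ) - (⌊(k + 1 : ℝ) * t⌋₊ : ℝ) / (k + 1 : ℝ)| ≤ _
  rw [show (t : ℝ) - (⌊(k + 1 : ℝ) * t⌋₊ : ℝ) / (k + 1 : ℝ) =
    ((k + 1 : ℝ) * t - ⌊(k + 1 : ℝ) * t⌋₊) / (k + 1) by field_simp, abs_div, abs_of_pos hk]
  gcongr
  rw [abs_le]
  constructor <;> linarith

lemma measurable_kap (k : ℕ) : Measurable (kap k) := by
  refine measurable_to_countable' fun i => ?_
  have : Measurable fun t : UI => ⌊(k + 1 : ℝ) * t⌋₊ := Nat.measurable_floor.comp (by fun_prop)
  convert this (measurableSet_singleton (i : ℕ)) using 1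
  ext t
  simp [kap, Fin.ext_iff]

noncomputable def wt (k : ℕ) (i : Fin (k + 2)) : ℝ := volume.real (kap k ⁻¹' {i})

lemma integral_disc [DecidableEq V] (k : ℕ) (g : (V → Fin (k + 2)) → ℝ) :
    ∫ σ : V → UI, g (fun v => kap k (σ v)) = ∑ c, (∏ v, wt k (c v)) * g c := by
  have hm : Measurable fun (σ : V → UI) v => kap k (σ v) :=
    measurable_pi_lambda _ fun v => (measurable_kap k).comp (measurable_pi_apply v)
  rw [← integral_map hm.aemeasurable (measurable_of_countable g).aestronglyMeasurable,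
    integral_fintype Integrable.of_finite]
  refine sum_congr rfl fun c _ => ?_
  rw [smul_eq_mul, map_measureReal_apply hm (measurableSet_singleton c)]
  congr 1
  have : (fun (σ : V → UI) v => kap k (σ v)) ⁻¹' {c} = Set.univ.pi fun v => kap k ⁻¹' {c v} := by
    ext σ
    simp [funext_iff]
  rw [this, Measure.real, volume_pi_pi, ENNReal.toReal_prod]
  rfl

noncomputable def ZD [DecidableEq V] (G : SimpleGraph V) (k : ℕ) (f : TF) : ℝ :=
  ∑ c : V → Fin (k + 2), (∏ v, wt k (c v)) *
    Real.exp (en G (fun i => f.1 (rep k i)) (fun p => f.2 (rep k p.1, rep k p.2)) c)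

lemma Lam_disc (f : TF) {ε : ℝ} (hε : 0 < ε) : ∃ k : ℕ, ∀ (V : Type) [Fintype V] [DecidableEq V]
    (G : SimpleGraph V) (D : ℕ), Sparse G D →
      |Lam G f - (Fintype.card V : ℝ)⁻¹ * Real.log (ZD G k f)| ≤ (1 + D) * ε := by
  obtain ⟨δ1, h1, H1⟩ := Metric.uniformContinuous_iff.1
    (CompactSpace.uniformContinuous_of_continuous f.1.continuous) ε hε
  obtain ⟨δ2, h2, H2⟩ := Metric.uniformContinuous_iff.1
    (CompactSpace.uniformContinuous_of_continuous f.2.continuous) ε hε
  obtain ⟨k, hk⟩ := exists_nat_one_div_lt (lt_min h1 h2)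
  refine ⟨k, fun V _ _ G D hG => abs_inv_mul_le (by positivity) ?_⟩
  have hm : Measurable fun (σ : V → UI) v => kap k (σ v) :=
    measurable_pi_lambda _ fun v => (measurable_kap k).comp (measurable_pi_apply v)
  rw [ZD, ← integral_disc k (fun c =>
    Real.exp (en G (fun i => f.1 (rep k i)) (fun p => f.2 (rep k p.1, rep k p.2)) c))]
  refine abs_log_integral_exp (integrable_exp_en G f) ?_ fun σ => ?_
  · exact (integrable_map_measure (measurable_of_countable _).aestronglyMeasurable
      hm.aemeasurable).1 (Integrable.of_finite (f := fun c =>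
        Real.exp (en G (fun i => f.1 (rep k i)) (fun p => f.2 (rep k p.1, rep k p.2)) c)))
  · have hd := fun t => (dist_rep_kap k t).trans_lt hk
    refine en_sub_le hG hε.le (fun u => (H1 ((hd _).trans_le (min_le_left _ _))).le) fun u v =>
      (H2 ?_).le
    exact max_lt ((hd _).trans_le (min_le_right _ _)) ((hd _).trans_le (min_le_right _ _))

lemma exists_wt_pos (k : ℕ) : ∃ i, 0 < wt k i := by
  have := integral_disc (V := Unit) k (fun _ => 1)
  by_contra h
  push Not at h
  have h0 : ∀ i, wt k i = 0 := fun i => le_antisymm (h i) measureReal_nonneg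
  simp [h0] at this

end Pool.Agent.P.MP_4503fd_co
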