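import Pool.Agent.P.MP_4503fd_co.Model

/-! Existence of lifts whose free energies are all close to the annealed ones. -/

namespace Pool.Agent.P.MP_4503fd_co

open Finset Filter Topology
open scoped Nat

lemma tendsto_poly_geom (K : ℕ) {r : ℝ} (h0 : 0 < r) (h1 : r < 1) :
    Tendsto (fun N : ℕ => (N + 1 : ℝ) ^ K * r ^ N) atTop (𝓝 0) := by
  have h := (tendsto_pow_const_mul_const_pow_of_abs_lt_one K (r := r)
    (by rwa [abs_of_pos h0])).comp (tendsto_add_atTop_nat 1)
  have h2 := h.const_mul r⁻¹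
  rw [mul_zero] at h2
  refine h2.congr fun N => ?_
  simp only [Function.comp]
  push_cast
  field_simp
  ring

variable {J : Type} [Fintype J] [DecidableEq J]
variable {V I : Type} [Fintype V] [DecidableEq V] [Fintype I] [DecidableEq I]

omit [DecidableEq J] [DecidableEq I] in
lemma exists_prod_model {ι : Type} (s : Finset ι) (M : ι → Model) (β : J → I × Bool ≃ V) :
    ∃ P : Model, P.Phi J = ∏ i ∈ s, (M i).Phi J ∧
      ∀ (N : ℕ) (π : J × I → Equiv.Perm (Fin N)), P.Z β π = ∏ i ∈ s, (M i).Z β π := by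
  classical
  induction s using Finset.induction_on with
  | empty => exact ⟨Model.one, by simp [Model.Phi_one], fun N π => by simp [Model.Z_one]⟩
  | insert a s ha ih =>
    obtain ⟨P, h1, h2⟩ := ih
    exact ⟨(M a).mul P, by rw [Model.Phi_mul, h1, prod_insert ha],
      fun N π => by rw [Model.Z_mul, h2, prod_insert ha]⟩

open Classical in
lemma exists_good {ι : Type} (s : Finset ι) (M : ι → Model) (hpos : ∀ i, 0 < (M i).Phi J)
    (β : J → I × Bool ≃ V) (Bad : ∀ N : ℕ, (J × I → Equiv.Perm (Fin N)) → Prop) {r : ℝ}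
    (hr0 : 0 < r) (hr1 : r < 1) (K : ℕ)
    (hBad : ∀ N : ℕ, 0 < N → Av (fun π => if Bad N π then (1 : ℝ) else 0) ≤ (N + 1 : ℝ) ^ K * r ^ N)
    {ε : ℝ} (hε : 0 < ε) :
    ∀ᶠ N : ℕ in atTop, ∃ π, ¬ Bad N π ∧ ∀ i ∈ s,
      |Real.log ((M i).Z β π) - N * Fintype.card V * Real.log ((M i).Phi J)| ≤ ε * N := by
  obtain ⟨P, hP1, hP2⟩ := exists_prod_model s M β
  set η : ℝ := ε / (#s + 1) with hη
  have hη0 : 0 < η := by positivity
  have hq0 : 0 < Real.exp (-η) := Real.exp_pos _
  have hq1 : Real.exp (-η) < 1 := Real.exp_lt_one_iff.2 (by linarith)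
  set K1 := Fintype.card P.T * Fintype.card J * Fintype.card V
  set K2 := 2 * Fintype.card (P.mul P).T * Fintype.card (J × I)
  set Ki : ι → ℕ := fun i => 2 * Fintype.card (M i).T * Fintype.card (J × I)
  have t1 : Tendsto (fun N : ℕ => 4 * ((N + 1 : ℝ) ^ (2 * K1 + K2 + K) * r ^ N +
      ∑ i ∈ s, (N + 1 : ℝ) ^ (2 * K1 + K2 + Ki i) * Real.exp (-η) ^ N)) atTop (𝓝 0) := by
    have := ((tendsto_poly_geom (2 * K1 + K2 + K) hr0 hr1).add
      (tendsto_finsetSum s fun i _ => tendsto_poly_geom (2 * K1 + K2 + Ki i) hq0 hq1)).const_mul 4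
    simpa using this
  have t2 := (tendsto_poly_geom K1 hq0 hq1).const_mul 2
  rw [mul_zero] at t2
  filter_upwards [t1.eventually (gt_mem_nhds zero_lt_one), t2.eventually (gt_mem_nhds zero_lt_one),
    eventually_gt_atTop 0] with N e1 e2 hN
  set A : ℝ := P.Phi J ^ (N * Fintype.card V) with hA
  have hPpos : 0 < P.Phi J := by rw [hP1]; exact prod_pos fun i _ => hpos i
  have hA0 : 0 < A := by positivity
  set C1 : ℝ := (N + 1 : ℝ) ^ K1 with hC1
  set C2 : ℝ := (N + 1 : ℝ) ^ K2 with hC2
  have hC10 : 0 < C1 := by positivity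
  have hC20 : 0 < C2 := by positivity
  have m1 : A ≤ C1 * Av (P.Z (N := N) β) := P.Av_Z_lower β
  have m2 : Av (fun π => P.Z (N := N) β π ^ 2) ≤ C2 * A ^ 2 := by
    have := (P.mul P).Av_Z_upper hN β
    rw [Model.Phi_mul, mul_pow, ← sq] at this
    refine le_trans (le_of_eq ?_) this
    congr 1
    funext π
    rw [Model.Z_mul, sq]
  let B : (J × I → Equiv.Perm (Fin N)) → Prop := fun π => Bad N π ∨ ∃ i ∈ s,
    Real.exp (η * N) * (M i).Phi J ^ (N * Fintype.card V) < (M i).Z β π
  have m3 : Av (fun π => if B π then (1 : ℝ) else 0) ≤ (N + 1 : ℝ) ^ K * r ^ N +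
      ∑ i ∈ s, (N + 1 : ℝ) ^ Ki i * Real.exp (-η) ^ N := by
    have hd : ∀ i, 0 < Real.exp (η * N) * (M i).Phi J ^ (N * Fintype.card V) := fun i =>
      mul_pos (Real.exp_pos _) (pow_pos (hpos i) _)
    calc _ ≤ Av (fun π => (if Bad N π then (1 : ℝ) else 0) + ∑ i ∈ s,
          (Real.exp (η * N) * (M i).Phi J ^ (N * Fintype.card V))⁻¹ * (M i).Z β π) := by
          refine Av_mono fun π => ?_
          have hs : ∀ i ∈ s, 0 ≤ (Real.exp (η * N) * (M i).Phi J ^ (N * Fintype.card V))⁻¹ *
            (M i).Z β π := fun i _ => mul_nonneg (inv_nonneg.2 (hd i).le) ((M i).Z_nonneg β π)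
          have hs' := sum_nonneg hs
          by_cases hb : Bad N π
          · rw [if_pos (Or.inl hb), if_pos hb]
            linarith
          · rw [if_neg hb, zero_add]
            split_ifs with hB
            · obtain ⟨i, hi, hlt⟩ := hB.resolve_left hb
              refine le_trans ?_ (single_le_sum hs hi)
              rw [← div_eq_inv_mul, le_div_iff₀ (hd i), one_mul]
              exact hlt.le
            · exact hs'
      _ ≤ _ := by
          rw [Av_add, Av_sum]
          refine add_le_add (hBad N hN) (sum_le_sum fun i _ => ?_)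
          rw [Av_mul, ← div_eq_inv_mul, div_le_iff₀ (hd i)]
          refine ((M i).Av_Z_upper hN β).trans (le_of_eq ?_)
          rw [← Real.exp_nat_mul, mul_assoc ((N + 1 : ℝ) ^ Ki i), ← mul_assoc (Real.exp _),
            ← Real.exp_add]
          simp [Ki, mul_comm]
  have key : ∃ π, ¬ B π ∧ A / (2 * C1) ≤ P.Z β π := by
    by_contra hcon
    push Not at hcon
    have h1 : Av (P.Z (N := N) β) ≤ Av (fun π => A / (2 * C1) + ((4 * C1 * C2 * A)⁻¹ *
        P.Z β π ^ 2 + C1 * C2 * A * if B π then (1 : ℝ) else 0)) := by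
      refine Av_mono fun π => ?_
      have h0 : 0 ≤ (4 * C1 * C2 * A)⁻¹ * P.Z β π ^ 2 := by positivity
      have h2 : 0 ≤ A / (2 * C1) := by positivity
      split_ifs with hB
      · have : P.Z β π ≤ (4 * C1 * C2 * A)⁻¹ * P.Z β π ^ 2 + C1 * C2 * A := by
          have hx : 0 < C1 * C2 * A := by positivity
          rw [show 4 * C1 * C2 * A = 4 * (C1 * C2 * A) by ring]
          generalize C1 * C2 * A = x at hx
          rw [← sub_nonneg, show (4 * x)⁻¹ * P.Z β π ^ 2 + x - P.Z β π =
            (4 * x)⁻¹ * (P.Z β π - 2 * x) ^ 2 by field_simp; ring]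
          positivity
        linarith
      · have := hcon π hB
        linarith
    rw [Av_add, Av_add, Av_const, Av_mul, Av_mul] at h1
    have h2 : (4 * C1 * C2 * A)⁻¹ * Av (fun π => P.Z (N := N) β π ^ 2) ≤ A / (4 * C1) := by
      refine (mul_le_mul_of_nonneg_left m2 (by positivity)).trans (le_of_eq ?_)
      field_simp
    have h3 : 4 * (C1 ^ 2 * C2 * Av (fun π => if B π then (1 : ℝ) else 0)) < 1 := by
      refine lt_of_le_of_lt ?_ e1
      refine mul_le_mul_of_nonneg_left ?_ (by norm_num)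
      refine (mul_le_mul_of_nonneg_left m3 (by positivity)).trans (le_of_eq ?_)
      rw [mul_add, mul_sum]
      congr 1
      · rw [hC1, hC2]; ring
      · exact sum_congr rfl fun i _ => by rw [hC1, hC2]; ring
    have h4 : A ≤ C1 * (A / (2 * C1) + (A / (4 * C1) +
        C1 * C2 * A * Av (fun π => if B π then (1 : ℝ) else 0))) :=
      m1.trans (mul_le_mul_of_nonneg_left (by linarith) hC10.le)
    have h5 : C1 * (A / (2 * C1) + (A / (4 * C1) +
        C1 * C2 * A * Av (fun π => if B π then (1 : ℝ) else 0))) =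
        A * (3 / 4 + C1 ^ 2 * C2 * Av (fun π => if B π then (1 : ℝ) else 0)) := by
      field_simp
      ring
    rw [h5] at h4
    nlinarith
  obtain ⟨π, hB, hW⟩ := key
  simp only [B, not_or, not_exists, not_and, not_lt] at hB
  refine ⟨π, hB.1, ?_⟩
  have hW0 : 0 < P.Z β π := lt_of_lt_of_le (by positivity) hW
  have hZ : ∀ i ∈ s, 0 < (M i).Z β π := fun i hi => by
    refine lt_of_le_of_ne ((M i).Z_nonneg β π) fun h => ?_
    rw [hP2, prod_eq_zero hi h.symm] at hW0
    exact lt_irrefl _ hW0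
  set L : ι → ℝ := fun i =>
    Real.log ((M i).Z β π) - N * Fintype.card V * Real.log ((M i).Phi J) with hL
  have u1 : ∀ i ∈ s, L i ≤ η * N := fun i hi => by
    have := Real.log_le_log (hZ i hi) (hB.2 i hi)
    rw [Real.log_mul (Real.exp_pos _).ne' (pow_pos (hpos i) _).ne', Real.log_exp, Real.log_pow] at this
    push_cast at this
    simp only [hL]
    linarith
  have u2 : -(η * N) ≤ ∑ i ∈ s, L i := by
    have h1 : ∑ i ∈ s, L i = Real.log (P.Z β π) - Real.log A := by
      rw [hP2, hA, hP1, Real.log_pow, Real.log_prod (fun i hi => (hZ i hi).ne'),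
        Real.log_prod (fun i _ => (hpos i).ne'), mul_sum, ← sum_sub_distrib]
      push_cast
      rfl
    have h2 := Real.log_le_log (by positivity) hW
    rw [Real.log_div hA0.ne' (by positivity)] at h2
    have h3 : Real.log (2 * C1) ≤ η * N := by
      rw [Real.log_le_iff_le_exp (by positivity)]
      rw [← Real.exp_nat_mul, show (N : ℝ) * -η = -(η * N) by ring, Real.exp_neg, ← mul_assoc,
        ← div_eq_mul_inv, div_lt_one (Real.exp_pos _)] at e2
      exact e2.le
    linarith
  intro i hi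
  have u3 : ∑ l ∈ s.erase i, L l ≤ #s * (η * N) := by
    refine (sum_le_sum fun l hl => u1 l (mem_of_mem_erase hl)).trans ?_
    rw [sum_const, nsmul_eq_mul]
    gcongr
    exact erase_subset _ _
  rw [← add_sum_erase s L hi] at u2
  have u4 : (#s + 1) * (η * N) = ε * N := by rw [hη]; field_simp
  have u5 : 0 ≤ (#s : ℝ) * (η * N) := by positivity
  have := u1 i hi
  rw [abs_le]
  constructor <;> nlinarith

/-- number of monochromatic edges of the lift -/
def mono {N : ℕ} (β : J → I × Bool ≃ V) (π : J × I → Equiv.Perm (Fin N))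
    (c : V → Fin N → Fin 2) : ℕ :=
  #{x : (J × I) × Fin N | c (β x.1.1 (x.1.2, false)) x.2 = c (β x.1.1 (x.1.2, true)) (π x.1 x.2)}

lemma one_perm {N : ℕ} (hN : 0 < N) (a b : Fin N → Fin 2) (γ : Fin 2) (hb : N ≤ 2 * cnt b γ) :
    (∑ p : Equiv.Perm (Fin N), ∏ u, if a u = b (p u) then (1 / 2 : ℝ) else 1) / N ! ≤
      (N + 1 : ℝ) ^ 2 * (3 / 4) ^ cnt a γ := by
  have hN' : (0 : ℝ) < N := by exact_mod_cast hN
  have h := perm_comp_upper hN b (x := fun u t => if a u = t then (1 / 2 : ℝ) else 1)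
    (fun u t => by split_ifs <;> norm_num)
  rw [Fintype.card_fin] at h
  refine h.trans (mul_le_mul_of_nonneg_left ?_ (by positivity))
  have h1 : (cnt b 0 : ℝ) + cnt b 1 = N := by
    have := sum_cnt b
    rw [Fin.sum_univ_two] at this
    exact_mod_cast this
  have hb' : (N : ℝ) ≤ 2 * cnt b γ := by exact_mod_cast hb
  have h2 : (3 / 4 : ℝ) ^ cnt a γ = ∏ u, if a u = γ then (3 / 4 : ℝ) else 1 := by
    rw [← prod_filter, prod_const]
    rfl
  rw [h2]
  refine prod_le_prod (fun u _ => sum_nonneg fun t _ => by split_ifs <;> positivity) fun u _ => ?_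
  rw [Fin.sum_univ_two, ← mul_div_assoc, ← mul_div_assoc, ← add_div, div_le_iff₀ hN']
  have p0 : (0 : ℝ) ≤ cnt b 0 := by positivity
  have p1 : (0 : ℝ) ≤ cnt b 1 := by positivity
  generalize a u = x
  fin_cases γ <;> fin_cases x <;> simp at hb' ⊢ <;> linarith

open Classical in
lemma Av_bad {A : Type} [Fintype A] [DecidableEq A] (hV : Fintype.card V = 4)
    (γ : A → I × Bool ≃ V)
    (hγ : ∀ m : V → Fin 2, ∃ a i, m (γ a (i, false)) = m (γ a (i, true))) {N : ℕ} (hN : 0 < N) :
    Av (fun π : (A × Fin 30) × I → Equiv.Perm (Fin N) =>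
      if ∃ c, mono (fun j : A × Fin 30 => γ j.1) π c ≤ N then (1 : ℝ) else 0) ≤
      (N + 1 : ℝ) ^ 60 * (1 / 2) ^ N := by
  have h1 : ∀ c : V → Fin N → Fin 2, Av (fun π : (A × Fin 30) × I → Equiv.Perm (Fin N) =>
      (1 / 2 : ℝ) ^ mono (fun j : A × Fin 30 => γ j.1) π c) ≤
      (N + 1 : ℝ) ^ 60 * ((3 / 4) ^ 15) ^ N := by
    intro c
    have hm : ∀ v, ∃ t, N ≤ 2 * cnt (c v) t := fun v => by
      have := sum_cnt (c v)
      rw [Fin.sum_univ_two] at this
      by_cases h : N ≤ 2 * cnt (c v) 0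
      · exact ⟨0, h⟩
      · exact ⟨1, by omega⟩
    choose m hm using hm
    obtain ⟨a, i, hai⟩ := hγ m
    let f : (A × Fin 30) × I → Equiv.Perm (Fin N) → ℝ := fun e p =>
      ∏ u, if c (γ e.1.1 (e.2, false)) u = c (γ e.1.1 (e.2, true)) (p u) then (1 / 2 : ℝ) else 1
    have h2 : ∀ π : (A × Fin 30) × I → Equiv.Perm (Fin N),
        (1 / 2 : ℝ) ^ mono (fun j : A × Fin 30 => γ j.1) π c = ∏ e, f e (π e) := by
      intro π
      rw [mono, ← prod_const, prod_filter, Fintype.prod_prod_type]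
    simp only [h2]
    rw [Av_prod]
    have hf0 : ∀ e p, 0 ≤ f e p := fun e p => prod_nonneg fun u _ => by split_ifs <;> norm_num
    have hf1 : ∀ e p, f e p ≤ 1 := fun e p => prod_le_one
      (fun u _ => by split_ifs <;> norm_num) fun u _ => by split_ifs <;> norm_num
    have hfact : (0 : ℝ) < N ! := by positivity
    let emb : Fin 30 ↪ (A × Fin 30) × I := ⟨fun ρ => ((a, ρ), i), fun x y h => by simpa using h⟩
    calc _ ≤ ∏ e ∈ univ.map emb, (∑ p, f e p) / N ! := by
          refine prod_le_prod_of_subset_of_le_one (subset_univ _)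
            (fun e _ => div_nonneg (sum_nonneg fun p _ => hf0 e p) hfact.le) fun e _ _ => ?_
          rw [div_le_one hfact]
          refine (sum_le_sum fun p _ => hf1 e p).trans ?_
          simp [Fintype.card_perm]
      _ ≤ ∏ _ρ : Fin 30, (N + 1 : ℝ) ^ 2 * (3 / 4) ^ cnt (c (γ a (i, false))) (m (γ a (i, true))) := by
          rw [prod_map]
          exact prod_le_prod (fun e _ => div_nonneg (sum_nonneg fun p _ => hf0 _ p) hfact.le)
            fun ρ _ => one_perm hN _ _ _ (hm _)
      _ ≤ _ := by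
          rw [prod_const, card_univ, Fintype.card_fin, mul_pow, ← pow_mul, ← pow_mul, ← pow_mul]
          refine mul_le_mul_of_nonneg_left ?_ (by positivity)
          refine pow_le_pow_of_le_one (by norm_num) (by norm_num) ?_
          have := hm (γ a (i, false))
          rw [hai] at this
          omega
  calc _ ≤ Av (fun π : (A × Fin 30) × I → Equiv.Perm (Fin N) => 2 ^ N *
        ∑ c : V → Fin N → Fin 2, (1 / 2 : ℝ) ^ mono (fun j : A × Fin 30 => γ j.1) π c) := by
        refine Av_mono fun π => ?_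
        split_ifs with h
        · obtain ⟨c, hc⟩ := h
          have h2 := single_le_sum (f := fun c : V → Fin N → Fin 2 =>
            (1 / 2 : ℝ) ^ mono (fun j : A × Fin 30 => γ j.1) π c) (fun c _ => by positivity)
            (mem_univ c)
          have h3 : (1 / 2 : ℝ) ^ N ≤ (1 / 2 : ℝ) ^ mono (fun j : A × Fin 30 => γ j.1) π c :=
            pow_le_pow_of_le_one (by norm_num) (by norm_num) hc
          calc (1 : ℝ) = 2 ^ N * (1 / 2) ^ N := by rw [← mul_pow]; norm_num
            _ ≤ _ := by gcongr; exact h3.trans h2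
        · positivity
    _ ≤ 2 ^ N * ∑ _c : V → Fin N → Fin 2, (N + 1 : ℝ) ^ 60 * ((3 / 4) ^ 15) ^ N := by
        rw [Av_mul, Av_sum]
        gcongr with c
        exact h1 c
    _ = (N + 1 : ℝ) ^ 60 * (32 * (3 / 4) ^ 15) ^ N := by
        simp only [sum_const, card_univ, Fintype.card_pi, Fintype.card_fin, prod_const, hV,
          nsmul_eq_mul]
        push_cast
        have : (32 : ℝ) ^ N = 2 ^ N * (2 ^ N) ^ 4 := by
          rw [← pow_succ', ← pow_mul, mul_comm, pow_mul]
          norm_num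
        rw [mul_pow, this]
        ring
    _ ≤ _ := by gcongr; norm_num

end Pool.Agent.P.MP_4503fd_co
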