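import Pool.Agent.P.MP_4503fd_co.Energy

/-! Large deviations: upper bound and tools for the lower bound. -/

namespace Pool.Agent.P.MP_4503fd_co

open MeasureTheory Filter Topology Finset
open scoped NNReal ENNReal

lemma integral_exp_en {V : Type} [Fintype V] (hV : 0 < Fintype.card V) (G : SimpleGraph V)
    (f : TF) : ∫ σ : V → UI, Real.exp (en G f.1 f.2 σ) = Real.exp (Fintype.card V * Lam G f) := by
  have : (Fintype.card V : ℝ) ≠ 0 := by positivity
  rw [Lam, mul_inv_cancel_left₀ this, Real.exp_log (integral_exp_pos (integrable_exp_en G f))]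

lemma en_eq {V : Type} [Fintype V] (hV : 0 < Fintype.card V) (G : SimpleGraph V)
    (f : TF) (σ : V → UI) : en G f.1 f.2 σ = Fintype.card V * pair f (emp G σ) := by
  have : (Fintype.card V : ℝ) ≠ 0 := by positivity
  rw [pair_emp, mul_inv_cancel_left₀ this]

lemma markov {V : Type} [Fintype V] (hV : 0 < Fintype.card V) (G : SimpleGraph V)
    (f : TF) (a : ℝ) : volume.real {σ | a < pair f (emp G σ)} ≤
      Real.exp (Fintype.card V * (Lam G f - a)) := by
  have h := mul_meas_ge_le_integral_of_nonneg (μ := (volume : Measure (V → UI)))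
    (f := fun σ => Real.exp (en G f.1 f.2 σ)) (Eventually.of_forall fun σ => (Real.exp_pos _).le)
    (integrable_exp_en G f) (Real.exp (Fintype.card V * a))
  rw [integral_exp_en hV] at h
  rw [mul_sub, Real.exp_sub, le_div_iff₀' (Real.exp_pos _)]
  refine le_trans (mul_le_mul_of_nonneg_left (measureReal_mono fun σ hσ => ?_)
    (Real.exp_pos _).le) h
  simp only [Set.mem_ofPred_eq, Real.exp_le_exp, en_eq hV] at hσ ⊢
  exact mul_le_mul_of_nonneg_left hσ.le (by positivity)

lemma eventually_le_exp {θ : ℕ → ℕ} (hθ : Tendsto θ atTop atTop) (c : ℝ) {ε : ℝ} (hε : 0 < ε) :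
    ∀ᶠ n in atTop, c ≤ Real.exp (θ n * ε) :=
  (Real.tendsto_exp_atTop.comp
    ((tendsto_natCast_atTop_atTop.comp hθ).atTop_mul_const hε)).eventually_ge_atTop c

lemma upper {V : ℕ → Type} [∀ n, Fintype (V n)] {G : ∀ n, SimpleGraph (V n)} {D : ℕ}
    (hS : ∀ n, Sparse (G n) D) (hN : Tendsto (fun n => Fintype.card (V n)) atTop atTop)
    {L : TF → ℝ} (hL : ∀ f, Tendsto (fun n => Lam (G n) f) atTop (𝓝 (L f)))
    {C : Set XX} (hC : IsClosed C) {α : ℝ} (hα : ∀ x ∈ C, ∃ f, α < pair f x - L f) {ε : ℝ}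
    (hε : 0 < ε) : ∀ᶠ n in atTop, volume.real {σ | emp (G n) σ ∈ C} ≤
      Real.exp (Fintype.card (V n) * (ε - α)) := by
  have hK := ((isCompact_setOfPred_finiteMeasure_le_of_compactSpace UI 1).prod
    (isCompact_setOfPred_finiteMeasure_le_of_compactSpace (UI × UI) D)).inter_left hC
  obtain ⟨t, ht⟩ := hK.elim_finite_subcover (fun f : TF => {y | α + L f < pair f y})
    (fun f => isOpen_lt continuous_const (continuous_pair f)) (fun x hx => by
      obtain ⟨f, hf⟩ := hα x hx.1
      exact Set.mem_iUnion.2 ⟨f, by simp only [Set.mem_ofPred_eq]; linarith⟩)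
  have e1 : ∀ᶠ n in atTop, ∀ f ∈ t, Lam (G n) f < L f + ε / 2 :=
    (eventually_all_finset t).2 fun f _ => (hL f).eventually (gt_mem_nhds (by linarith))
  filter_upwards [e1, eventually_le_exp hN #t (half_pos hε), hN.eventually_gt_atTop 0] with n h1 h2 h3
  calc _ ≤ volume.real (⋃ f ∈ t, {σ | α + L f < pair f (emp (G n) σ)}) := by
        refine measureReal_mono (fun σ hσ => ?_) (measure_ne_top _ _)
        simpa using ht ⟨hσ, emp_mem (hS n) σ⟩
    _ ≤ ∑ f ∈ t, Real.exp (Fintype.card (V n) * (ε / 2 - α)) := by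
        refine (measureReal_biUnion_finset_le _ _).trans (sum_le_sum fun f hf => ?_)
        refine (markov h3 _ _ _).trans (Real.exp_le_exp.2 ?_)
        exact mul_le_mul_of_nonneg_left (by linarith [h1 f hf]) (by positivity)
    _ ≤ _ := by
        rw [sum_const, nsmul_eq_mul]
        refine (mul_le_mul_of_nonneg_right h2 (Real.exp_pos _).le).trans (le_of_eq ?_)
        rw [← Real.exp_add]
        congr 1
        ring

lemma nhds_basis {U : Set XX} {x : XX} (hU : U ∈ 𝓝 x) : ∃ (t : Finset TF) (η : ℝ), 0 < η ∧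
    ∀ y, (∀ f ∈ t, |pair f y - pair f x| < η) → y ∈ U := by
  classical
  let B : Finset TF × {η : ℝ // 0 < η} → Filter XX :=
    fun p => 𝓟 {y | ∀ f ∈ p.1, |pair f y - pair f x| < p.2}
  have hd : Directed (· ≥ ·) B := fun p q => by
    refine ⟨(p.1 ∪ q.1, ⟨min p.2 q.2, lt_min p.2.2 q.2.2⟩), ?_, ?_⟩
    · exact principal_mono.2 fun y hy f hf => (hy f (mem_union_left _ hf)).trans_le (min_le_left _ _)
    · exact principal_mono.2 fun y hy f hf =>
        (hy f (mem_union_right _ hf)).trans_le (min_le_right _ _)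
  have h1 : ∀ f, Tendsto (pair f) (⨅ p, B p) (𝓝 (pair f x)) := fun f => by
    rw [Metric.tendsto_nhds]
    intro η hη
    refine mem_iInf_of_mem (({f} : Finset TF), ⟨η, hη⟩) (mem_principal.2 fun y hy => ?_)
    exact hy f (mem_singleton_self f)
  have h2 : (⨅ p, B p) ≤ 𝓝 x := by
    rw [nhds_prod_eq]
    refine Tendsto.prodMk (f := ⨅ p, B p) (m₁ := Prod.fst) (m₂ := Prod.snd) ?_ ?_
    · rw [FiniteMeasure.tendsto_iff_forall_integral_tendsto]
      intro g
      have := h1 (g.toContinuousMap, 0)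
      unfold pair at this
      simpa using this
    · rw [FiniteMeasure.tendsto_iff_forall_integral_tendsto]
      intro g
      have := h1 (0, g.toContinuousMap)
      unfold pair at this
      simpa using this
  have : Nonempty (Finset TF × {η : ℝ // 0 < η}) := ⟨(∅, ⟨1, one_pos⟩)⟩
  obtain ⟨p, hp⟩ := (mem_iInf_of_directed hd U).1 (h2 hU)
  exact ⟨p.1, p.2, p.2.2, fun y hy => hp hy⟩

lemma pair_sum {ι : Type} [Fintype ι] (l : ι → ℝ) (f : ι → TF) (x : XX) :
    pair (∑ i, l i • f i) x = ∑ i, l i * pair (f i) x := by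
  have i1 : ∀ g : C(UI, ℝ), Integrable g (x.1 : Measure UI) := fun g =>
    g.continuous.integrable_of_hasCompactSupport (HasCompactSupport.of_compactSpace _)
  have i2 : ∀ g : C(UI × UI, ℝ), Integrable g (x.2 : Measure (UI × UI)) := fun g =>
    g.continuous.integrable_of_hasCompactSupport (HasCompactSupport.of_compactSpace _)
  simp only [pair, Prod.fst_sum, Prod.snd_sum, Prod.smul_fst, Prod.smul_snd,
    ContinuousMap.sum_apply, ContinuousMap.smul_apply, smul_eq_mul, mul_add, sum_add_distrib]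
  rw [integral_finsetSum _ fun i _ => (i1 _).const_mul _,
    integral_finsetSum _ fun i _ => (i2 _).const_mul _]
  simp only [integral_const_mul]

lemma selection {ι Q : Type} [Fintype ι] [Fintype Q] [Nonempty Q] (z : Q → ι → ℝ) (s : Q → ℝ)
    {R B a : ℝ} (hR : 0 < R) (hB : ∀ q i, |z q i| ≤ B) {m : ℕ} (hm : 0 < m)
    (h : ∀ l : ι → ℝ, (∀ i, |l i| ≤ R * B) → ∃ q, a ≤ s q + ∑ i, l i * z q i) :
    ∃ q : Fin m → Q, m * a - 2 * R * Fintype.card ι * B ^ 2 ≤
      ∑ c, s (q c) - R / m * ∑ i, (∑ c, z (q c) i) ^ 2 := by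
  classical
  have hm' : (0 : ℝ) < m := by exact_mod_cast hm
  obtain ⟨q, -, hq⟩ := exists_max_image univ (fun q : Fin m → Q =>
    ∑ c, s (q c) - R / (2 * m) * ∑ i, (∑ c, z (q c) i) ^ 2) univ_nonempty
  refine ⟨q, ?_⟩
  set S : ι → ℝ := fun i => ∑ c, z (q c) i with hS
  obtain ⟨q', hq'⟩ := h (fun i => -(R / m) * S i) fun i => by
    have : |S i| ≤ m * B := by
      refine (abs_sum_le_sum_abs _ _).trans ((sum_le_sum fun c _ => hB (q c) i).trans ?_)
      simp
    rw [abs_mul, abs_neg, abs_of_pos (by positivity : 0 < R / m)]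
    refine (mul_le_mul_of_nonneg_left this (by positivity)).trans (le_of_eq ?_)
    field_simp
  have up : ∀ (g : Q → ℝ) (c : Fin m), ∑ c', g (Function.update q c q' c') =
      ∑ c', g (q c') + (g q' - g (q c)) := fun g c => by
    rw [← add_sum_erase _ _ (mem_univ c), ← add_sum_erase _ _ (mem_univ c), Function.update_self,
      sum_congr rfl fun c' hc' => by rw [Function.update_of_ne (ne_of_mem_erase hc')]]
    ring
  have key : ∀ c, s q' - s (q c) ≤ R / m * ∑ i, S i * (z q' i - z (q c) i) +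
      2 * R * Fintype.card ι * B ^ 2 / m := fun c => by
    have h1 := hq (Function.update q c q') (mem_univ _)
    simp only [up s c, fun i => up (fun r => z r i) c] at h1
    have h2 : ∑ i, (S i + (z q' i - z (q c) i)) ^ 2 ≤ ∑ i, S i ^ 2 +
        2 * ∑ i, S i * (z q' i - z (q c) i) + Fintype.card ι * (4 * B ^ 2) := by
      rw [mul_sum, ← sum_add_distrib, ← card_univ, ← nsmul_eq_mul, ← sum_const, ← sum_add_distrib]
      refine sum_le_sum fun i _ => ?_
      have a1 := abs_le.1 (hB q' i)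
      have a2 := abs_le.1 (hB (q c) i)
      nlinarith
    have h3 := mul_le_mul_of_nonneg_left h2 (by positivity : 0 ≤ R / (2 * m))
    have h4 : R / (2 * m) * (∑ i, S i ^ 2 + 2 * ∑ i, S i * (z q' i - z (q c) i) +
        Fintype.card ι * (4 * B ^ 2)) = R / (2 * m) * ∑ i, S i ^ 2 +
        (R / m * ∑ i, S i * (z q' i - z (q c) i) + 2 * R * Fintype.card ι * B ^ 2 / m) := by
      field_simp
      ring
    simp only [hS] at h3 h4 ⊢
    linarith
  have h5 := sum_le_sum fun c (_ : c ∈ univ) => key c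
  rw [sum_sub_distrib, sum_add_distrib, ← mul_sum, sum_comm] at h5
  simp only [← mul_sum, sum_sub_distrib, sum_const, card_univ, Fintype.card_fin, nsmul_eq_mul] at h5
  have h6 : ∑ i, S i * (m * z q' i - S i) = m * ∑ i, S i * z q' i - ∑ i, S i ^ 2 := by
    rw [mul_sum, ← sum_sub_distrib]
    exact sum_congr rfl fun i _ => by ring
  have h7 : ∑ i, -(R / m) * S i * z q' i = -(R / m) * ∑ i, S i * z q' i := by
    rw [mul_sum]
    exact sum_congr rfl fun i _ => by ring
  change m * s q' - ∑ c, s (q c) ≤ R / m * ∑ i, S i * (m * z q' i - S i) + _ at h5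
  rw [h6, mul_div_cancel₀ _ hm'.ne'] at h5
  rw [h7] at hq'
  have h8 := mul_le_mul_of_nonneg_left hq' hm'.le
  have h9 : (m : ℝ) * (s q' + -(R / m) * ∑ i, S i * z q' i) =
      m * s q' - R / m * (m * ∑ i, S i * z q' i) := by ring
  rw [mul_sub (R / m)] at h5
  linarith

lemma uniform_lower {W : ℕ → Type} [∀ n, Fintype (W n)] {F : ∀ n, SimpleGraph (W n)} {D : ℕ}
    (hS : ∀ n, Sparse (F n) D) {L : TF → ℝ} (hL : ∀ f, Tendsto (fun n => Lam (F n) f) atTop (𝓝 (L f)))
    {x : XX} {s : ℝ} (hs : ∀ f, pair f x - L f ≤ s) {ι : Type} [Fintype ι] (f : ι → TF) (r : ℝ)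
    {ε : ℝ} (hε : 0 < ε) : ∀ᶠ n in atTop, ∀ l : ι → ℝ, (∀ i, |l i| ≤ r) →
      -s - ε ≤ Lam (F n) (∑ i, l i • f i) - ∑ i, l i * pair (f i) x := by
  have hK : IsCompact (Set.Icc (fun _ : ι => -r) (fun _ => r)) := isCompact_Icc
  have := hK.mem_prod_nhdsSet_of_forall (l := atTop) (s := {p : ℕ × (ι → ℝ) |
      -s - ε ≤ Lam (F p.1) (∑ i, p.2 i • f i) - ∑ i, p.2 i * pair (f i) x}) fun l0 _ => by
    have c1 : Continuous fun l : ι → ℝ => (1 + D : ℝ) * dist (∑ i, l i • f i) (∑ i, l0 i • f i) +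
        (∑ i, l i * pair (f i) x - ∑ i, l0 i * pair (f i) x) := by fun_prop
    have e1 := c1.continuousAt (x := l0).eventually (gt_mem_nhds (a := ε / 2) (by simpa using hε))
    have e2 := (hL (∑ i, l0 i • f i)).eventually
      (lt_mem_nhds (a := L (∑ i, l0 i • f i) - ε / 2) (by linarith))
    refine mem_of_superset (prod_mem_prod e2 e1) fun p hp => ?_
    have h1 := hs (∑ i, l0 i • f i)
    rw [pair_sum] at h1
    have h2 := (abs_le.1 (Lam_lip (hS p.1) (∑ i, p.2 i • f i) (∑ i, l0 i • f i))).1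
    have h3 := hp.1
    have h4 := hp.2
    simp only [Set.mem_ofPred_eq] at h3 h4 ⊢
    linarith
  obtain ⟨A, hA, B, hB, hAB⟩ := mem_prod_iff.1 this
  filter_upwards [hA] with n hn l hl
  exact hAB (Set.mk_mem_prod hn (subset_of_mem_nhdsSet hB
    ⟨fun i => (abs_le.1 (hl i)).1, fun i => (abs_le.1 (hl i)).2⟩))

end Pool.Agent.P.MP_4503fd_co
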