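import Pool.Agent.P.MP_4503fd_co.LDP1

/-! Large deviations principle for many disjoint copies of graphs with converging free energies. -/

namespace Pool.Agent.P.MP_4503fd_co

open MeasureTheory Filter Topology Finset
open scoped NNReal ENNReal

lemma cells {Ω ι : Type} [MeasurableSpace Ω] (μ : Measure Ω) [IsProbabilityMeasure μ] [Fintype ι]
    [DecidableEq ι] {Y : Ω → ι → ℝ} (hY : Measurable Y) {B0 δ : ℝ} (hB : ∀ σ i, |Y σ i| ≤ B0)
    (hδ : 0 < δ) {M : ℕ} (hM : B0 / δ + 1 ≤ M) {N : ℝ} (hN : 0 ≤ N) (l : ι → ℝ) :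
    ∃ q : ι → ℤ, 0 < μ.real {σ | ∀ i, ⌊Y σ i / δ⌋ = q i} ∧
      Real.log (∫ σ, Real.exp (N * ∑ i, l i * Y σ i) ∂μ) ≤
        Fintype.card ι * Real.log (2 * M + 1) + Real.log (μ.real {σ | ∀ i, ⌊Y σ i / δ⌋ = q i}) +
          N * (∑ i, l i * (δ * q i) + δ * ∑ i, |l i|) := by
  classical
  let T : Finset (ι → ℤ) := Fintype.piFinset fun _ => Icc (-(M : ℤ)) M
  let A : (ι → ℤ) → Set Ω := fun q => {σ | ∀ i, ⌊Y σ i / δ⌋ = q i}
  let e : (ι → ℤ) → ℝ := fun q => Real.exp (N * (∑ i, l i * (δ * q i) + δ * ∑ i, |l i|))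
  have hA : ∀ q, MeasurableSet (A q) := fun q => by
    simp only [A, Set.ofPred_forall]
    refine MeasurableSet.iInter fun i => ?_
    exact (Int.measurable_floor.comp (((measurable_pi_apply i).comp hY).div_const δ))
      (measurableSet_singleton (q i))
  have hT : ∀ σ, (fun i => ⌊Y σ i / δ⌋) ∈ T := fun σ => by
    simp only [T, Fintype.mem_piFinset, mem_Icc]
    intro i
    have h1 := abs_le.1 (hB σ i)
    have h2 : Y σ i / δ ≤ B0 / δ := div_le_div_of_nonneg_right h1.2 hδ.le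
    have h3 : -B0 / δ ≤ Y σ i / δ := div_le_div_of_nonneg_right h1.1 hδ.le
    rw [neg_div] at h3
    constructor
    · rw [Int.le_floor]
      push_cast
      linarith
    · have := Int.floor_le (Y σ i / δ)
      have h4 : (⌊Y σ i / δ⌋ : ℝ) ≤ (M : ℤ) := by push_cast; linarith
      exact_mod_cast h4
  have hpt : ∀ σ, Real.exp (N * ∑ i, l i * Y σ i) ≤ ∑ q ∈ T, (A q).indicator (fun _ => e q) σ := by
    intro σ
    refine le_trans ?_ (single_le_sum (f := fun q => (A q).indicator (fun _ => e q) σ)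
      (fun q _ => Set.indicator_nonneg (fun _ _ => (Real.exp_pos _).le) σ) (hT σ))
    rw [Set.indicator_of_mem (by intro i; rfl)]
    refine Real.exp_le_exp.2 (mul_le_mul_of_nonneg_left ?_ hN)
    rw [mul_sum, ← sum_add_distrib]
    refine sum_le_sum fun i _ => ?_
    have h1 := Int.floor_le (Y σ i / δ)
    have h2 := Int.lt_floor_add_one (Y σ i / δ)
    rw [le_div_iff₀ hδ] at h1
    rw [div_lt_iff₀ hδ] at h2
    have h3 : |Y σ i - δ * ⌊Y σ i / δ⌋| ≤ δ := abs_le.2 ⟨by linarith, by linarith⟩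
    have h4 : l i * (Y σ i - δ * ⌊Y σ i / δ⌋) ≤ |l i| * δ :=
      (le_abs_self _).trans (by rw [abs_mul]; gcongr)
    linarith
  have hi : ∀ q ∈ T, Integrable ((A q).indicator fun _ => e q) μ := fun q _ =>
    (integrable_const _).indicator (hA q)
  have hi2 : Integrable (fun σ => Real.exp (N * ∑ i, l i * Y σ i)) μ :=
    (integrable_finsetSum T hi).mono' (by fun_prop) (Eventually.of_forall fun σ => by
      rw [Real.norm_of_nonneg (Real.exp_pos _).le]; exact hpt σ)
  have h1 := integral_mono hi2 (integrable_finsetSum T hi) hpt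
  rw [integral_finsetSum T hi] at h1
  simp only [integral_indicator_const _ (hA _), smul_eq_mul] at h1
  have h0 := integral_exp_pos hi2
  have hTne : T.Nonempty := by
    by_contra h
    rw [not_nonempty_iff_eq_empty.1 h, sum_empty] at h1
    linarith
  obtain ⟨q, -, hq⟩ := exists_max_image T (fun q => μ.real (A q) * e q) hTne
  have h2 : ∑ q ∈ T, μ.real (A q) * e q ≤ (2 * M + 1 : ℝ) ^ Fintype.card ι * (μ.real (A q) * e q) := by
    refine (sum_le_sum hq).trans (le_of_eq ?_)
    rw [sum_const, nsmul_eq_mul]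
    congr 1
    simp only [T, Fintype.card_piFinset, Int.card_Icc, prod_const, card_univ]
    rw [show ((M : ℤ) + 1 - -(M : ℤ)).toNat = 2 * M + 1 by omega]
    push_cast
    rfl
  have h3 := h1.trans h2
  have hp : 0 < μ.real (A q) := by
    refine lt_of_le_of_ne measureReal_nonneg fun h => ?_
    rw [← h, zero_mul, mul_zero] at h3
    linarith
  refine ⟨q, hp, (Real.log_le_log h0 h3).trans (le_of_eq ?_)⟩
  rw [Real.log_mul (by positivity) (by positivity), Real.log_mul hp.ne' (Real.exp_pos _).ne',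
    Real.log_pow, Real.log_exp, add_assoc]

lemma pair_zero (x : XX) : pair 0 x = 0 := by simp [pair]

lemma abs_pair_emp {V : Type} [Fintype V] {G : SimpleGraph V} {D : ℕ} (h : Sparse G D) (f : TF)
    (σ : V → UI) : |pair f (emp G σ)| ≤ (1 + D) * dist f 0 := by
  have := abs_inv_mul_le (by positivity) (en_lip h f 0 σ)
  rwa [← pair_emp, ← pair_emp, pair_zero, sub_zero] at this

lemma lower {W : ℕ → Type} [∀ n, Fintype (W n)] {F : ∀ n, SimpleGraph (W n)} {D : ℕ}
    (hS : ∀ n, Sparse (F n) D) (hN : Tendsto (fun n => Fintype.card (W n)) atTop atTop)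
    {L : TF → ℝ} (hL : ∀ f, Tendsto (fun n => Lam (F n) f) atTop (𝓝 (L f)))
    {U : Set XX} {x : XX} (hU : U ∈ 𝓝 x) {s : ℝ} (hs0 : 0 ≤ s) (hs : ∀ f, pair f x - L f ≤ s)
    {ε : ℝ} (hε : 0 < ε) : ∀ᶠ n in atTop,
      Real.exp (Fintype.card (Fin (n + 1) × W n) * (-s - ε)) ≤
        volume.real {σ | emp (copies (n + 1) (F n)) σ ∈ U} := by
  classical
  obtain ⟨t, η, hη, hU⟩ := nhds_basis hU
  let f : t → TF := fun i => i.1
  set B0 : ℝ := ∑ i, ((1 + D) * dist (f i) 0 + |pair (f i) x|) with hB0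
  have hB00 : 0 ≤ B0 := sum_nonneg fun i _ => by positivity
  set B := B0 + 1 with hB
  set R := 4 * (s + ε + 1) / η ^ 2 with hR
  have hR0 : 0 < R := by positivity
  set κ : ℝ := (Fintype.card t : ℝ) with hκ
  have hκ0 : 0 ≤ κ := by positivity
  set δ := min (min 1 (η / 2)) (ε / 4 / (κ * (R * B) + 1)) with hδ
  have hδ0 : 0 < δ := by positivity
  have hδ1 : δ ≤ 1 := (min_le_left _ _).trans (min_le_left _ _)
  have hδ2 : δ ≤ η / 2 := (min_le_left _ _).trans (min_le_right _ _)
  have hδ3 : δ * (κ * (R * B)) ≤ ε / 4 := by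
    have := min_le_right (min 1 (η / 2)) (ε / 4 / (κ * (R * B) + 1))
    rw [← hδ, le_div_iff₀ (by positivity)] at this
    nlinarith
  obtain ⟨M, hM⟩ := exists_nat_ge (B0 / δ + 1)
  have e1 := uniform_lower hS hL hs f (R * B) (ε := ε / 4) (by positivity)
  have e2 : ∀ᶠ n in atTop, κ * Real.log (2 * M + 1) ≤ Fintype.card (W n) * (ε / 4) :=
    ((tendsto_natCast_atTop_atTop.comp hN).atTop_mul_const
      (by positivity : 0 < ε / 4)).eventually_ge_atTop _
  have e3 : ∀ᶠ n : ℕ in atTop, 2 * R * κ * B ^ 2 ≤ n * (ε / 4) :=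
    (tendsto_natCast_atTop_atTop.atTop_mul_const (by positivity : 0 < ε / 4)).eventually_ge_atTop _
  filter_upwards [e1, e2, e3, hN.eventually_gt_atTop 0] with n h1 h2 h3 h4
  set N : ℝ := (Fintype.card (W n) : ℝ) with hNd
  have hN0 : 0 < N := by rw [hNd]; exact_mod_cast h4
  let Y : (W n → UI) → t → ℝ := fun σ i => pair (f i) (emp (F n) σ) - pair (f i) x
  have hY : Measurable Y := measurable_pi_lambda _ fun i =>
    (((continuous_pair (f i)).comp (continuous_emp (F n))).sub continuous_const).measurable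
  have hYB : ∀ σ i, |Y σ i| ≤ B0 := fun σ i => by
    refine le_trans ?_ (single_le_sum (f := fun i => (1 + D) * dist (f i) 0 + |pair (f i) x|)
      (fun i _ => by positivity) (mem_univ i))
    exact (abs_sub _ _).trans (add_le_add_left (abs_pair_emp (hS n) _ σ) _)
  let A : (t → ℤ) → Set (W n → UI) := fun q => {σ | ∀ i, ⌊Y σ i / δ⌋ = q i}
  have hAq : ∀ q σ, σ ∈ A q → ∀ i, |Y σ i - δ * q i| ≤ δ := fun q σ hσ i => by
    have a1 := Int.floor_le (Y σ i / δ)
    have a2 := Int.lt_floor_add_one (Y σ i / δ)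
    rw [le_div_iff₀ hδ0] at a1
    rw [div_lt_iff₀ hδ0] at a2
    rw [hσ i] at a1 a2
    exact abs_le.2 ⟨by linarith, by linarith⟩
  let Q := {q : t → ℤ // 0 < volume.real (A q)}
  have hQB : ∀ (q : Q) i, |δ * q.1 i| ≤ B := fun q i => by
    obtain ⟨σ, hσ⟩ : (A q.1).Nonempty := by
      by_contra h
      have := q.2
      rw [Set.not_nonempty_iff_eq_empty.1 h] at this
      simp at this
    have a1 := abs_le.1 (hAq _ σ hσ i)
    have a2 := abs_le.1 (hYB σ i)
    exact abs_le.2 ⟨by linarith, by linarith⟩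
  have hQfin : Finite Q := by
    obtain ⟨M', hM'⟩ := exists_nat_ge (B / δ)
    refine Finite.of_injective (fun q : Q => fun i : t => (⟨q.1 i, ?_⟩ : Icc (-(M' : ℤ)) M'))
      fun q q' h => Subtype.ext (funext fun i => congrArg Subtype.val (congrFun h i))
    have a1 := hQB q i
    rw [abs_mul, abs_of_pos hδ0, ← le_div_iff₀' hδ0] at a1
    have a2 : |q.1 i| ≤ M' := by exact_mod_cast a1.trans hM'
    exact mem_Icc.2 (abs_le.1 a2)
  have := Fintype.ofFinite Q
  have hsel : ∀ l : t → ℝ, (∀ i, |l i| ≤ R * B) → ∃ q : Q, -s - 3 * (ε / 4) ≤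
      N⁻¹ * Real.log (volume.real (A q.1)) + ∑ i, l i * (δ * q.1 i) := fun l hl => by
    obtain ⟨q, hq, hq'⟩ := cells volume hY hYB hδ0 hM hN0.le l
    refine ⟨⟨q, hq⟩, ?_⟩
    have a1 := h1 l hl
    have a2 : ∀ σ, N * ∑ i, l i * Y σ i = en (F n) (∑ i, l i • f i).1 (∑ i, l i • f i).2 σ +
        -(N * ∑ i, l i * pair (f i) x) := fun σ => by
      rw [en_eq h4, pair_sum]
      simp only [Y, mul_sub, sum_sub_distrib]
      ring
    simp only [a2, Real.exp_add, integral_mul_const, integral_exp_en h4] at hq'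
    rw [← Real.exp_add, Real.log_exp] at hq'
    have a3 : δ * ∑ i, |l i| ≤ ε / 4 := by
      refine le_trans (mul_le_mul_of_nonneg_left ((sum_le_sum fun i _ => hl i).trans ?_) hδ0.le) hδ3
      simp [hκ]
    have a4 := mul_le_mul_of_nonneg_left a1 hN0.le
    have a5 := mul_le_mul_of_nonneg_left a3 hN0.le
    refine le_of_mul_le_mul_left ?_ hN0
    rw [mul_add N, mul_inv_cancel_left₀ hN0.ne']
    change _ ≤ Real.log (volume.real {σ | ∀ i, ⌊Y σ i / δ⌋ = q i}) + N * ∑ i, l i * (δ * q i)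
    nlinarith
  have : Nonempty Q := ⟨(hsel 0 fun i => by simp; positivity).choose⟩
  obtain ⟨q, hq⟩ := selection (fun (q : Q) i => δ * q.1 i)
    (fun q => N⁻¹ * Real.log (volume.real (A q.1))) hR0 hQB (Nat.succ_pos n) hsel
  set m : ℝ := ((n + 1 : ℕ) : ℝ) with hm
  have hm0 : 0 < m := by positivity
  have hm1 : (n : ℝ) ≤ m := by rw [hm]; push_cast; linarith
  have b1 : m * (-s - ε) + R / m * ∑ i, (∑ c, δ * (q c).1 i) ^ 2 ≤
      ∑ c, N⁻¹ * Real.log (volume.real (A (q c).1)) := by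
    have := mul_le_mul_of_nonneg_right hm1 (by positivity : 0 ≤ ε / 4)
    change m * _ - 2 * R * κ * B ^ 2 ≤ _ - R / m * _ at hq
    nlinarith
  have b2 : ∑ c, N⁻¹ * Real.log (volume.real (A (q c).1)) ≤ 0 := sum_nonpos fun c _ =>
    mul_nonpos_of_nonneg_of_nonpos (by positivity)
      (Real.log_nonpos measureReal_nonneg measureReal_le_one)
  have b3 : ∀ i, |m⁻¹ * ∑ c, δ * (q c).1 i| < η / 2 := fun i => by
    have c1 := single_le_sum (f := fun i => (∑ c, δ * (q c).1 i) ^ 2) (fun i _ => sq_nonneg _)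
      (mem_univ i)
    have c2 := mul_le_mul_of_nonneg_left c1 (by positivity : 0 ≤ R / m)
    have c3 : R / m * (∑ c, δ * (q c).1 i) ^ 2 ≤ m * (s + ε) := by linarith
    refine abs_lt_of_sq_lt_sq ?_ (by positivity)
    have c4 : R * (m⁻¹ * ∑ c, δ * (q c).1 i) ^ 2 ≤ s + ε := by
      refine le_of_mul_le_mul_left (le_trans (le_of_eq ?_) c3) hm0
      field_simp
    have c5 : R * (η / 2) ^ 2 = s + ε + 1 := by rw [hR]; field_simp; ring
    refine lt_of_mul_lt_mul_left ?_ hR0.le
    linarith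
  calc _ ≤ ∏ c, volume.real (A (q c).1) := by
        have c1 : 0 ≤ R / m * ∑ i, (∑ c, δ * (q c).1 i) ^ 2 :=
          mul_nonneg (by positivity) (sum_nonneg fun _ _ => sq_nonneg _)
        rw [← Real.exp_log (prod_pos fun c _ => (q c).2), Real.exp_le_exp,
          Real.log_prod fun c _ => (q c).2.ne', Fintype.card_prod, Fintype.card_fin]
        rw [← mul_sum] at b1
        have c2 := mul_le_mul_of_nonneg_left ((le_add_of_nonneg_right c1).trans b1) hN0.le
        rw [mul_inv_cancel_left₀ hN0.ne'] at c2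
        refine le_trans (le_of_eq ?_) c2
        rw [Nat.cast_mul]
        ring
    _ = volume.real {σ : Fin (n + 1) × W n → UI | ∀ c, (fun w => σ (c, w)) ∈ A (q c).1} := by
        rw [Measure.real, prob_copies, ENNReal.toReal_prod]
        rfl
    _ ≤ _ := by
        refine measureReal_mono (fun σ hσ => hU _ fun g hg => ?_) (measure_ne_top _ _)
        have c1 : pair g (emp (copies (n + 1) (F n)) σ) - pair g x =
            m⁻¹ * ∑ c, (Y (fun w => σ (c, w)) ⟨g, hg⟩ - δ * (q c).1 ⟨g, hg⟩) +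
              m⁻¹ * ∑ c, δ * (q c).1 ⟨g, hg⟩ := by
          rw [← mul_add, ← sum_add_distrib, pair_emp, en_copies]
          simp only [sub_add_cancel, Y, f, en_eq h4, sum_sub_distrib, sum_const, card_univ,
            Fintype.card_fin, nsmul_eq_mul, Fintype.card_prod, ← mul_sum]
          rw [Nat.cast_mul, ← hm, ← hNd]
          field_simp
        have c2 : |m⁻¹ * ∑ c, (Y (fun w => σ (c, w)) ⟨g, hg⟩ - δ * (q c).1 ⟨g, hg⟩)| ≤ δ := by
          rw [abs_mul, abs_of_pos (inv_pos.2 hm0), inv_mul_le_iff₀ hm0]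
          refine (abs_sum_le_sum_abs _ _).trans
            ((sum_le_sum fun c _ => hAq _ _ (hσ c) ⟨g, hg⟩).trans (le_of_eq ?_))
          simp [hm]
        rw [c1]
        have := abs_add_le (m⁻¹ * ∑ c, (Y (fun w => σ (c, w)) ⟨g, hg⟩ - δ * (q c).1 ⟨g, hg⟩))
          (m⁻¹ * ∑ c, δ * (q c).1 ⟨g, hg⟩)
        linarith [b3 ⟨g, hg⟩]

lemma le_rate {V : Type} [Fintype V] (hV : 0 < Fintype.card V) (G : SimpleGraph V) (A : Set XX)
    {a : ℝ} (h : Real.exp (Fintype.card V * a) ≤ volume.real {σ | emp G σ ∈ A}) :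
    (a : EReal) ≤ rate G A := by
  have h0 : (0 : ℝ) < Fintype.card V := by exact_mod_cast hV
  have h1 := (Real.exp_pos _).trans_le h
  rw [rate, ← ofReal_measureReal (measure_ne_top _ _), ENNReal.log_ofReal_of_pos h1,
    ← EReal.coe_mul, EReal.coe_le_coe_iff, le_inv_mul_iff₀ h0]
  exact (Real.le_log_iff_exp_le h1).2 h

lemma rate_le {V : Type} [Fintype V] (hV : 0 < Fintype.card V) (G : SimpleGraph V) (A : Set XX)
    {a : ℝ} (h : volume.real {σ | emp G σ ∈ A} ≤ Real.exp (Fintype.card V * a)) :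
    rate G A ≤ (a : EReal) := by
  have h0 : (0 : ℝ) < Fintype.card V := by exact_mod_cast hV
  have h1 : ENNReal.log (volume {σ | emp G σ ∈ A}) ≤ ((Fintype.card V * a : ℝ) : EReal) := by
    rw [← ofReal_measureReal (measure_ne_top _ _), ← Real.log_exp (Fintype.card V * a),
      ← ENNReal.log_ofReal_of_pos (Real.exp_pos _)]
    exact ENNReal.log_monotone (ENNReal.ofReal_le_ofReal h)
  refine (mul_le_mul_of_nonneg_left h1 (by exact_mod_cast (inv_pos.2 h0).le)).trans (le_of_eq ?_)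
  rw [← EReal.coe_mul, inv_mul_cancel_left₀ h0.ne']

theorem ldConv_copies {W : ℕ → Type} [∀ n, Fintype (W n)] {F : ∀ n, SimpleGraph (W n)} {D : ℕ}
    (hD : ∀ n v, ((F n).neighborSet v).ncard ≤ D)
    (hN : Tendsto (fun n => Fintype.card (W n)) atTop atTop)
    (hc : ∀ f, CauchySeq fun n => Lam (F n) f) :
    LDConv (fun n => Fin (n + 1) × W n) (fun n => copies (n + 1) (F n)) := by
  choose L hL using fun f => cauchySeq_tendsto_of_complete (hc f)
  have hS : ∀ n, Sparse (F n) D := fun n => sparse_of_degree (hD n)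
  have hS' : ∀ n, Sparse (copies (n + 1) (F n)) D := fun n =>
    sparse_of_degree fun v => (degree_copies _ _ v).trans_le (hD n _)
  have hN' : Tendsto (fun n => Fintype.card (Fin (n + 1) × W n)) atTop atTop :=
    tendsto_atTop_mono (fun n => by
      rw [Fintype.card_prod, Fintype.card_fin]; exact Nat.le_mul_of_pos_left _ n.succ_pos) hN
  have hL' : ∀ f, Tendsto (fun n => Lam (copies (n + 1) (F n)) f) atTop (𝓝 (L f)) := fun f => by
    simpa only [Lam_copies (Nat.succ_pos _)] using hL f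
  have hL0 : L 0 = 0 := tendsto_nhds_unique (hL 0) (by simp [Lam_zero])
  refine ⟨fun x => ⨆ f, ENNReal.ofReal (pair f x - L f), lowerSemicontinuous_iSup fun f =>
    (ENNReal.continuous_ofReal.comp ((continuous_pair f).sub continuous_const)).lowerSemicontinuous,
    fun A => ⟨?_, ?_⟩⟩
  · refine EReal.ge_of_forall_gt_iff_ge.1 fun z hz => ?_
    rw [EReal.lt_neg_comm, ← EReal.coe_neg] at hz
    have hz0 : 0 < -z := by
      have := (EReal.coe_ennreal_nonneg _).trans_lt hz
      exact_mod_cast this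
    rw [show ((-z : ℝ) : EReal) = (ENNReal.ofReal (-z) : ℝ≥0∞) by
      rw [EReal.coe_ennreal_ofReal, max_eq_left hz0.le], EReal.coe_ennreal_lt_coe_ennreal_iff] at hz
    simp only [iInf_lt_iff] at hz
    obtain ⟨x, hx, hz⟩ := hz
    set I := ⨆ f, ENNReal.ofReal (pair f x - L f) with hI
    have hI1 : I ≠ ∞ := (hz.trans ENNReal.ofReal_lt_top).ne
    have hI2 : I.toReal < -z := (ENNReal.lt_ofReal_iff_toReal_lt hI1).1 hz
    have hs : ∀ f, pair f x - L f ≤ I.toReal := fun f =>
      (ENNReal.ofReal_le_iff_le_toReal hI1).1 (le_iSup (fun f => ENNReal.ofReal (pair f x - L f)) f)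
    refine le_liminf_of_le (by isBoundedDefault) ?_
    filter_upwards [lower hS hN hL (isOpen_interior.mem_nhds hx) ENNReal.toReal_nonneg hs
      (sub_pos.2 hI2), hN'.eventually_gt_atTop 0] with n h1 h2
    refine le_rate h2 _ _ (le_trans (le_of_eq ?_) h1)
    congr 2
    ring
  · refine EReal.le_of_forall_lt_iff_le.1 fun z hz => ?_
    rw [EReal.neg_lt_comm, ← EReal.coe_neg] at hz
    obtain ⟨α, h1, h2⟩ := EReal.lt_iff_exists_real_btwn.1 hz
    have h1' : -z < α := by exact_mod_cast h1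
    have hα : ∀ x ∈ closure A, ∃ f, α < pair f x - L f := fun x hx => by
      rcases lt_or_ge α 0 with h | h
      · exact ⟨0, by simpa [pair_zero, hL0] using h⟩
      · rw [show (α : EReal) = (ENNReal.ofReal α : ℝ≥0∞) by
          rw [EReal.coe_ennreal_ofReal, max_eq_left h], EReal.coe_ennreal_lt_coe_ennreal_iff] at h2
        obtain ⟨f, hf⟩ := lt_iSup_iff.1 (h2.trans_le (iInf₂_le x hx))
        exact ⟨f, (ENNReal.ofReal_lt_ofReal_iff_of_nonneg h).1 hf⟩
    refine limsup_le_of_le (by isBoundedDefault) ?_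
    filter_upwards [upper hS' hN' hL' isClosed_closure hα (ε := α + z) (by linarith),
      hN'.eventually_gt_atTop 0] with n h1 h2
    refine rate_le h2 _ _ (h1.trans (le_of_eq ?_))
    congr 2
    ring

end Pool.Agent.P.MP_4503fd_co
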