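import Pool.Agent.P.MP_4503fd_co.Good
import Pool.Agent.P.MP_4503fd_co.Energy

/-! Subdivided lifts: their discretised partition functions are completely positive models. -/

namespace Pool.Agent.P.MP_4503fd_co

open Finset Filter Topology

def subdiv {A E : Type} (L R : E → A) : SimpleGraph (A ⊕ E) where
  Adj
    | .inl a, .inr e => a = L e ∨ a = R e
    | .inr e, .inl a => a = L e ∨ a = R e
    | _, _ => False
  symm := ⟨by rintro (a | a) (b | b) h <;> exact h⟩
  loopless := ⟨by rintro (a | a) h <;> exact h⟩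

section

variable {A E : Type} {L R : E → A}

@[simp] lemma subdiv_ll (a b : A) : (subdiv L R).Adj (.inl a) (.inl b) ↔ False := Iff.rfl
@[simp] lemma subdiv_rr (a b : E) : (subdiv L R).Adj (.inr a) (.inr b) ↔ False := Iff.rfl
@[simp] lemma subdiv_lr (a : A) (e : E) :
    (subdiv L R).Adj (.inl a) (.inr e) ↔ a = L e ∨ a = R e := Iff.rfl
@[simp] lemma subdiv_rl (a : A) (e : E) :
    (subdiv L R).Adj (.inr e) (.inl a) ↔ a = L e ∨ a = R e := Iff.rfl

variable [Fintype A] [Fintype E]

lemma en_subdiv {S : Type} (h : ∀ e, L e ≠ R e) (a : S → ℝ) (b : S × S → ℝ) (c : A ⊕ E → S) :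
    en (subdiv L R) a b c = ∑ x, a (c (.inl x)) + ∑ e, (a (c (.inr e)) +
      ((b (c (.inl (L e)), c (.inr e)) + b (c (.inr e), c (.inl (L e)))) +
       (b (c (.inl (R e)), c (.inr e)) + b (c (.inr e), c (.inl (R e)))))) := by
  classical
  have key : ∀ (e : E) (g : A → ℝ), (∑ x, if x = L e ∨ x = R e then g x else 0) =
      g (L e) + g (R e) := fun e g => by
    rw [← sum_filter, show (univ.filter fun x => x = L e ∨ x = R e) = {L e, R e} by ext; simp,
      sum_pair (h e)]
  unfold en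
  rw [sum_filter, Fintype.sum_prod_type, Fintype.sum_sum_type, Fintype.sum_sum_type]
  simp only [Fintype.sum_sum_type, subdiv_ll, subdiv_rr, subdiv_lr, subdiv_rl, if_false,
    sum_const_zero, zero_add, add_zero]
  rw [sum_comm (s := (univ : Finset A))]
  simp only [key, sum_add_distrib]
  ring

end

noncomputable abbrev model (k : ℕ) (f : TF) : Model where
  S := Fin (k + 2)
  T := Fin (k + 2)
  w := fun s => wt k s * Real.exp (f.1 (rep k s))
  ph := fun s t => √(wt k t * Real.exp (f.1 (rep k t))) *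
    Real.exp (f.2 (rep k s, rep k t) + f.2 (rep k t, rep k s))
  hw := fun _ => mul_nonneg MeasureTheory.measureReal_nonneg (Real.exp_pos _).le
  hph := fun _ _ => by positivity

lemma model_pos (J : Type) [Fintype J] (k : ℕ) (f : TF) : 0 < (model k f).Phi J := by
  obtain ⟨t, ht⟩ := exists_wt_pos k
  let M := model k f
  let g : J → Fin (k + 2) → ℝ := fun _ s => if s = t then 1 else 0
  have hg : Adm g := fun j => ⟨fun s => by simp only [g]; split_ifs <;> norm_num, by simp [g]⟩
  refine lt_of_lt_of_le ?_ (M.F_le hg)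
  refine sum_pos' (fun s _ => mul_nonneg (M.hw s) (prod_nonneg fun j _ => sum_nonneg fun t _ =>
    mul_nonneg (M.hph s t) ((hg j).1 t))) ⟨t, mem_univ _, ?_⟩
  refine mul_pos (mul_pos ht (Real.exp_pos _)) (prod_pos fun j _ => ?_)
  simp only [g, mul_ite, mul_one, mul_zero, sum_ite_eq', mem_univ, if_true]
  exact mul_pos (Real.sqrt_pos.2 (mul_pos ht (Real.exp_pos _))) (Real.exp_pos _)

lemma ZD_subdiv {A E : Type} [Fintype A] [Fintype E] [DecidableEq A] [DecidableEq E]
    {L R : E → A} (h : ∀ e, L e ≠ R e) (k : ℕ) (f : TF) :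
    ZD (subdiv L R) k f = ∑ σ : A → Fin (k + 2), (∏ x, (model k f).w (σ x)) *
      ∏ e, ∑ t : Fin (k + 2), (model k f).ph (σ (L e)) t * (model k f).ph (σ (R e)) t := by
  unfold ZD
  rw [← (Equiv.sumArrowEquivProdArrow A E (Fin (k + 2))).symm.sum_comp, Fintype.sum_prod_type]
  refine sum_congr rfl fun σ _ => ?_
  rw [Fintype.prod_sum, mul_sum]
  refine sum_congr rfl fun τ _ => ?_
  rw [en_subdiv h, Fintype.prod_sum_type, Real.exp_add, Real.exp_sum, Real.exp_sum,
    mul_mul_mul_comm, ← prod_mul_distrib, ← prod_mul_distrib]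
  congr 1
  refine prod_congr rfl fun e _ => ?_
  simp only [Equiv.sumArrowEquivProdArrow_symm_apply_inl,
    Equiv.sumArrowEquivProdArrow_symm_apply_inr]
  rw [mul_mul_mul_comm, Real.mul_self_sqrt
    ((model k f).hw (τ e)), Real.exp_add, Real.exp_add, mul_assoc]

variable {J V I : Type} {N : ℕ}

def Lft (β : J → I × Bool ≃ V) (e : (J × I) × Fin N) : V × Fin N := (β e.1.1 (e.1.2, false), e.2)

def Rgt (β : J → I × Bool ≃ V) (π : J × I → Equiv.Perm (Fin N)) (e : (J × I) × Fin N) :
    V × Fin N := (β e.1.1 (e.1.2, true), π e.1 e.2)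

def liftG (β : J → I × Bool ≃ V) (π : J × I → Equiv.Perm (Fin N)) :
    SimpleGraph ((V × Fin N) ⊕ ((J × I) × Fin N)) := subdiv (Lft β) (Rgt β π)

lemma Lft_ne (β : J → I × Bool ≃ V) (π : J × I → Equiv.Perm (Fin N)) (e : (J × I) × Fin N) :
    Lft β e ≠ Rgt β π e := by
  simp [Lft, Rgt]

lemma ZD_liftG [Fintype J] [DecidableEq J] [Fintype V] [DecidableEq V] [Fintype I] [DecidableEq I]
    (β : J → I × Bool ≃ V) (π : J × I → Equiv.Perm (Fin N)) (k : ℕ) (f : TF) :
    ZD (liftG β π) k f = (model k f).Z β π := by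
  rw [liftG, ZD_subdiv (Lft_ne β π), Model.Z]
  refine Fintype.sum_equiv (Equiv.curry V (Fin N) (Fin (k + 2))) _ _ fun σ => ?_
  rw [Fintype.prod_prod_type, Fintype.prod_prod_type]
  rfl

lemma degree_liftG [Fintype J] [Nonempty J] (hJ : 2 ≤ Fintype.card J) (β : J → I × Bool ≃ V)
    (π : J × I → Equiv.Perm (Fin N)) (x : (V × Fin N) ⊕ ((J × I) × Fin N)) :
    ((liftG β π).neighborSet x).ncard ≤ Fintype.card J := by
  rcases x with ⟨v, y⟩ | e
  · rw [← Nat.card_eq_fintype_card, ← Set.ncard_univ]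
    refine Set.ncard_le_ncard_of_injOn
      (Sum.elim (fun _ => Classical.arbitrary J) (fun e => e.1.1)) (fun _ _ => trivial) ?_
    rintro (a | ⟨⟨j, i⟩, u⟩) ha (b | ⟨⟨j', i'⟩, u'⟩) hb hab
    · exact ha.elim
    · exact ha.elim
    · exact hb.elim
    obtain rfl : j = j' := hab
    simp only [liftG, SimpleGraph.mem_neighborSet, subdiv_lr, Lft, Rgt, Prod.mk.injEq] at ha hb
    rcases ha with ⟨rfl, rfl⟩ | ⟨rfl, rfl⟩ <;> rcases hb with ⟨h1, h2⟩ | ⟨h1, h2⟩ <;>
      simp only [EmbeddingLike.apply_eq_iff_eq, Prod.mk.injEq] at h1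
    · rw [h1.1, h2]
    · simp at h1
    · simp at h1
    · obtain rfl := h1.1
      rw [(π (j, i)).injective h2]
  · refine le_trans ?_ hJ
    refine (Set.ncard_le_ncard (t := {.inl (Lft β e), .inl (Rgt β π e)}) ?_).trans
      (Set.ncard_pair (by simpa using Lft_ne β π e)).le
    rintro (a | a) ha
    · simpa [liftG] using ha
    · exact ha.elim

end Pool.Agent.P.MP_4503fd_co
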