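import Pool.Agent.P.MP_4503fd_co.Perm

/-! Completely positive spin models on random lifts: first moment bounds. -/

namespace Pool.Agent.P.MP_4503fd_co

open Finset
open scoped Nat

structure Model where
  S : Type
  T : Type
  [fS : Fintype S]
  [fT : Fintype T]
  [dS : DecidableEq S]
  [dT : DecidableEq T]
  w : S → ℝ
  ph : S → T → ℝ
  hw : ∀ s, 0 ≤ w s
  hph : ∀ s t, 0 ≤ ph s t

attribute [instance] Model.fS Model.fT Model.dS Model.dT

variable {J : Type} [Fintype J] [DecidableEq J]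

namespace Model

abbrev one : Model where
  S := Unit
  T := Unit
  w := fun _ => 1
  ph := fun _ _ => 1
  hw := fun _ => zero_le_one
  hph := fun _ _ => zero_le_one

abbrev mul (M M' : Model) : Model where
  S := M.S × M'.S
  T := M.T × M'.T
  w := fun s => M.w s.1 * M'.w s.2
  ph := fun s t => M.ph s.1 t.1 * M'.ph s.2 t.2
  hw := fun _ => mul_nonneg (M.hw _) (M'.hw _)
  hph := fun _ _ => mul_nonneg (M.hph _ _) (M'.hph _ _)

noncomputable def F (M : Model) (g : J → M.T → ℝ) : ℝ :=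
  ∑ s, M.w s * ∏ j, ∑ t, M.ph s t * g j t

end Model

def Adm {T : Type} [Fintype T] (g : J → T → ℝ) : Prop :=
  ∀ j, (∀ t, 0 ≤ g j t) ∧ ∑ t, g j t ^ 2 ≤ 1

namespace Model

omit [DecidableEq J] in
lemma F_nonneg (M : Model) {g : J → M.T → ℝ} (hg : Adm g) : 0 ≤ M.F g :=
  sum_nonneg fun s _ => mul_nonneg (M.hw s) (prod_nonneg fun j _ =>
    sum_nonneg fun t _ => mul_nonneg (M.hph s t) ((hg j).1 t))

omit [DecidableEq J] in
lemma exists_max (M : Model) :
    ∃ g : J → M.T → ℝ, Adm g ∧ ∀ g' : J → M.T → ℝ, Adm g' → M.F g' ≤ M.F g := by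
  have hc : IsCompact {g : J → M.T → ℝ | Adm g} := by
    refine (isCompact_Icc (a := (0 : J → M.T → ℝ)) (b := 1)).of_isClosed_subset ?_ ?_
    · simp only [Adm, Set.ofPred_forall, Set.ofPred_and]
      refine isClosed_iInter fun j => (isClosed_iInter fun t => ?_).inter ?_
      · exact isClosed_le continuous_const (by fun_prop)
      · exact isClosed_le (by fun_prop) continuous_const
    · intro g hg
      refine ⟨fun j t => (hg j).1 t, fun j t => ?_⟩
      have h1 : g j t ^ 2 ≤ 1 :=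
        (single_le_sum (f := fun t => g j t ^ 2) (fun t _ => sq_nonneg _) (mem_univ t)).trans (hg j).2
      have := (hg j).1 t
      show g j t ≤ 1
      nlinarith
  have hn : {g : J → M.T → ℝ | Adm g}.Nonempty := ⟨0, fun j => by simp⟩
  have hF : Continuous (M.F (J := J)) := by unfold F; fun_prop
  obtain ⟨g, hg, hm⟩ := hc.exists_isMaxOn hn hF.continuousOn
  exact ⟨g, hg, fun g' hg' => hm hg'⟩

variable (J) in
noncomputable def gs (M : Model) : J → M.T → ℝ := (M.exists_max (J := J)).choose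

variable (J) in
noncomputable def Phi (M : Model) : ℝ := M.F (M.gs J)

omit [DecidableEq J] in
lemma gs_adm (M : Model) : Adm (M.gs J) := (M.exists_max (J := J)).choose_spec.1

omit [DecidableEq J] in
lemma F_le (M : Model) {g : J → M.T → ℝ} (hg : Adm g) : M.F g ≤ M.Phi J :=
  (M.exists_max (J := J)).choose_spec.2 g hg

omit [DecidableEq J] in
lemma Phi_nonneg (M : Model) : 0 ≤ M.Phi J := M.F_nonneg M.gs_adm

omit [DecidableEq J] in
lemma Phi_one : one.Phi J = 1 := by
  apply le_antisymm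
  · have h := one.gs_adm (J := J)
    unfold Phi F
    simp only [one, univ_unique, sum_singleton, one_mul]
    refine prod_le_one (fun j _ => (h j).1 _) fun j _ => ?_
    have h1 := (h j).2
    have h2 := (h j).1 ()
    simp only [one, univ_unique, sum_singleton] at h1
    change one.gs J j () ^ 2 ≤ 1 at h1
    change one.gs J j () ≤ 1
    nlinarith
  · have := one.F_le (J := J) (g := fun _ _ => 1) (fun j => by simp [one])
    simpa [F, one] using this

/-- triangle inequality in `ℓ²` -/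
lemma sq_sum_le {A B : Type} [Fintype A] [Fintype B] (a : A → ℝ) (ha : ∀ i, 0 ≤ a i)
    (G : A → B → ℝ) :
    √(∑ t, (∑ i, a i * G i t) ^ 2) ≤ ∑ i, a i * √(∑ t, G i t ^ 2) := by
  have h1 : ∀ v : B → ℝ, √(∑ t, v t ^ 2) = ‖(WithLp.toLp 2 v : EuclideanSpace ℝ B)‖ := by
    intro v
    simp [EuclideanSpace.norm_eq]
  simp only [h1]
  have h2 : (WithLp.toLp 2 (fun t => ∑ i, a i * G i t) : EuclideanSpace ℝ B) =
      ∑ i, a i • (WithLp.toLp 2 (G i) : EuclideanSpace ℝ B) := by
    ext t
    simp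
  rw [h2]
  refine (norm_sum_le _ _).trans (le_of_eq (sum_congr rfl fun i _ => ?_))
  rw [norm_smul, Real.norm_of_nonneg (ha i)]

omit [DecidableEq J] in
lemma F_le_norm (M : Model) {g : J → M.T → ℝ} (hg : ∀ j t, 0 ≤ g j t) :
    M.F g ≤ M.Phi J * ∏ j, √(∑ t, g j t ^ 2) := by
  by_cases h : ∃ j, ∑ t, g j t ^ 2 = 0
  · obtain ⟨j, hj⟩ := h
    have h0 : ∀ t, g j t = 0 := fun t => by
      have := (sum_eq_zero_iff_of_nonneg (fun t _ => sq_nonneg (g j t))).1 hj t (mem_univ t)
      simpa using this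
    have : M.F g = 0 := sum_eq_zero fun s _ => by
      rw [prod_eq_zero (mem_univ j) (by simp [h0]), mul_zero]
    rw [this]
    exact mul_nonneg M.Phi_nonneg (prod_nonneg fun _ _ => Real.sqrt_nonneg _)
  · push Not at h
    have hp : ∀ j, 0 < √(∑ t, g j t ^ 2) := fun j =>
      Real.sqrt_pos.2 (lt_of_le_of_ne (sum_nonneg fun t _ => sq_nonneg _) (h j).symm)
    have h1 := M.F_le (g := fun j t => g j t / √(∑ t, g j t ^ 2)) (fun j => ⟨fun t =>
      div_nonneg (hg j t) (hp j).le, by
        simp only [div_pow]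
        rw [← sum_div, Real.sq_sqrt (sum_nonneg fun t _ => sq_nonneg _), div_self (h j)]⟩)
    have h2 : M.F (fun j t => g j t / √(∑ t, g j t ^ 2)) = M.F g / ∏ j, √(∑ t, g j t ^ 2) := by
      unfold F
      rw [sum_div]
      refine sum_congr rfl fun s _ => ?_
      rw [mul_div_assoc, ← prod_div_distrib]
      simp only [sum_div, mul_div_assoc]
    rw [h2, div_le_iff₀ (prod_pos fun j _ => hp j)] at h1
    exact h1

omit [DecidableEq J] in
lemma Phi_mul (M M' : Model) : (M.mul M').Phi J = M.Phi J * M'.Phi J := by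
  apply le_antisymm
  · obtain hG := (M.mul M').gs_adm (J := J)
    unfold Phi
    generalize (M.mul M').gs J = G at hG
    change J → M.T × M'.T → ℝ at G
    have h1 : (M.mul M').F G =
        ∑ s, M.w s * M'.F (fun j t' => ∑ t, M.ph s t * G j (t, t')) := by
      unfold F
      change ∑ s : M.S × M'.S, M.w s.1 * M'.w s.2 *
        ∏ j, ∑ t : M.T × M'.T, M.ph s.1 t.1 * M'.ph s.2 t.2 * G j t = _
      rw [Fintype.sum_prod_type]
      refine sum_congr rfl fun s _ => ?_
      rw [mul_sum]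
      refine sum_congr rfl fun s' _ => ?_
      rw [mul_assoc]
      congr 2
      refine prod_congr rfl fun j _ => ?_
      rw [Fintype.sum_prod_type_right]
      refine sum_congr rfl fun t' _ => ?_
      rw [mul_sum]
      exact sum_congr rfl fun t _ => by ring
    have h2 : Adm (fun j t => √(∑ t', G j (t, t') ^ 2)) := fun j =>
      ⟨fun t => Real.sqrt_nonneg _, by
        rw [sum_congr rfl fun t _ => Real.sq_sqrt (sum_nonneg fun t' _ => sq_nonneg _),
          ← Fintype.sum_prod_type']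
        exact (hG j).2⟩
    rw [h1]
    calc _ ≤ ∑ s, M.w s * (M'.Phi J * ∏ j, ∑ t, M.ph s t * √(∑ t', G j (t, t') ^ 2)) := by
          refine sum_le_sum fun s _ => mul_le_mul_of_nonneg_left ?_ (M.hw s)
          refine (M'.F_le_norm fun j t' => sum_nonneg fun t _ =>
            mul_nonneg (M.hph s t) ((hG j).1 _)).trans ?_
          refine mul_le_mul_of_nonneg_left ?_ M'.Phi_nonneg
          exact prod_le_prod (fun j _ => Real.sqrt_nonneg _) fun j _ =>
            sq_sum_le _ (M.hph s) fun t t' => G j (t, t')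
      _ = M.F (fun j t => √(∑ t', G j (t, t') ^ 2)) * M'.Phi J := by
          unfold F
          rw [sum_mul]
          exact sum_congr rfl fun s _ => by ring
      _ ≤ _ := mul_le_mul_of_nonneg_right (M.F_le h2) M'.Phi_nonneg
  · have hg := M.gs_adm (J := J)
    have hg' := M'.gs_adm (J := J)
    have h := (M.mul M').F_le (J := J) (g := fun j (t : M.T × M'.T) => M.gs J j t.1 * M'.gs J j t.2)
      (fun j => ⟨fun t => mul_nonneg ((hg j).1 _) ((hg' j).1 _), by
        change ∑ t : M.T × M'.T, (M.gs J j t.1 * M'.gs J j t.2) ^ 2 ≤ 1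
        simp only [mul_pow]
        rw [Fintype.sum_prod_type' (fun t t' => M.gs J j t ^ 2 * M'.gs J j t' ^ 2), ← sum_mul_sum]
        exact mul_le_one₀ (hg j).2 (sum_nonneg fun _ _ => sq_nonneg _) (hg' j).2⟩)
    refine le_trans (le_of_eq ?_) h
    unfold Phi F
    change _ = ∑ s : M.S × M'.S, M.w s.1 * M'.w s.2 *
        ∏ j, ∑ t : M.T × M'.T, M.ph s.1 t.1 * M'.ph s.2 t.2 * (M.gs J j t.1 * M'.gs J j t.2)
    rw [Fintype.sum_prod_type, sum_mul_sum]
    refine sum_congr rfl fun s _ => sum_congr rfl fun s' _ => ?_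
    rw [mul_mul_mul_comm, ← prod_mul_distrib]
    congr 1
    refine prod_congr rfl fun j _ => ?_
    rw [Fintype.sum_prod_type, sum_mul_sum]
    exact sum_congr rfl fun t _ => sum_congr rfl fun t' _ => by ring

variable {V I : Type} [Fintype V] [DecidableEq V] [Fintype I] [DecidableEq I] {N : ℕ}

/-- partition function on the lift given by the permutations `π` -/
noncomputable def Z (M : Model) (β : J → I × Bool ≃ V) (π : J × I → Equiv.Perm (Fin N)) : ℝ :=
  ∑ σ : V → Fin N → M.S, (∏ v, ∏ u, M.w (σ v u)) * ∏ e : J × I, ∏ u,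
    ∑ t, M.ph (σ (β e.1 (e.2, false)) u) t * M.ph (σ (β e.1 (e.2, true)) (π e u)) t

omit [DecidableEq J] [DecidableEq I] in
lemma Z_nonneg (M : Model) (β : J → I × Bool ≃ V) (π : J × I → Equiv.Perm (Fin N)) :
    0 ≤ M.Z β π :=
  sum_nonneg fun _ _ => mul_nonneg (prod_nonneg fun _ _ => prod_nonneg fun _ _ => M.hw _)
    (prod_nonneg fun _ _ => prod_nonneg fun _ _ => sum_nonneg fun _ _ =>
      mul_nonneg (M.hph _ _) (M.hph _ _))

omit [DecidableEq J] [DecidableEq I] in
lemma Z_one (β : J → I × Bool ≃ V) (π : J × I → Equiv.Perm (Fin N)) : one.Z β π = 1 := by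
  simp [Z, one]

omit [DecidableEq J] [DecidableEq I] in
lemma Z_mul (M M' : Model) (β : J → I × Bool ≃ V) (π : J × I → Equiv.Perm (Fin N)) :
    (M.mul M').Z β π = M.Z β π * M'.Z β π := by
  unfold Z
  rw [sum_mul_sum, ← Fintype.sum_prod_type']
  let e : (V → Fin N → M.S) × (V → Fin N → M'.S) ≃ (V → Fin N → M.S × M'.S) :=
    { toFun := fun p v u => (p.1 v u, p.2 v u)
      invFun := fun σ => (fun v u => (σ v u).1, fun v u => (σ v u).2)
      left_inv := fun _ => rfl
      right_inv := fun _ => rfl }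
  refine (Fintype.sum_equiv e _ _ fun p => ?_).symm
  change _ = (∏ v, ∏ u, M.w (p.1 v u) * M'.w (p.2 v u)) * ∏ e : J × I, ∏ u, ∑ t : M.T × M'.T,
    M.ph (p.1 (β e.1 (e.2, false)) u) t.1 * M'.ph (p.2 (β e.1 (e.2, false)) u) t.2 *
    (M.ph (p.1 (β e.1 (e.2, true)) (π e u)) t.1 * M'.ph (p.2 (β e.1 (e.2, true)) (π e u)) t.2)
  simp only [prod_mul_distrib]
  rw [mul_mul_mul_comm, ← prod_mul_distrib (s := (univ : Finset (J × I)))]
  congr 1
  refine prod_congr rfl fun e _ => ?_
  rw [← prod_mul_distrib]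
  refine prod_congr rfl fun u _ => ?_
  rw [Fintype.sum_prod_type, sum_mul_sum]
  exact sum_congr rfl fun t _ => sum_congr rfl fun t' _ => by ring

end Model

/-- average over independent uniform permutations -/
noncomputable def Av {E : Type} [Fintype E] [DecidableEq E] {N : ℕ}
    (f : (E → Equiv.Perm (Fin N)) → ℝ) : ℝ :=
  (∑ π, f π) / (N ! : ℝ) ^ Fintype.card E

section Av

variable {E : Type} [Fintype E] [DecidableEq E] {N : ℕ}

lemma Av_prod (f : E → Equiv.Perm (Fin N) → ℝ) :
    Av (fun π => ∏ e, f e (π e)) = ∏ e, (∑ p, f e p) / N ! := by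
  unfold Av
  rw [prod_div_distrib, Fintype.prod_sum, prod_const, card_univ]

lemma Av_sum {A : Type} (s : Finset A) (f : A → (E → Equiv.Perm (Fin N)) → ℝ) :
    Av (fun π => ∑ a ∈ s, f a π) = ∑ a ∈ s, Av (f a) := by
  unfold Av
  rw [sum_comm, sum_div]

lemma Av_mul (c : ℝ) (f : (E → Equiv.Perm (Fin N)) → ℝ) : Av (fun π => c * f π) = c * Av f := by
  unfold Av
  rw [← mul_sum, mul_div_assoc]

lemma Av_add (f g : (E → Equiv.Perm (Fin N)) → ℝ) : Av (fun π => f π + g π) = Av f + Av g := by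
  unfold Av
  rw [sum_add_distrib, add_div]

lemma Av_mono {f g : (E → Equiv.Perm (Fin N)) → ℝ} (h : ∀ π, f π ≤ g π) : Av f ≤ Av g :=
  div_le_div_of_nonneg_right (sum_le_sum fun π _ => h π) (by positivity)

lemma Av_const (c : ℝ) : Av (fun _ : E → Equiv.Perm (Fin N) => c) = c := by
  unfold Av
  have : (N ! : ℝ) ≠ 0 := by positivity
  simp [Fintype.card_perm, this]

end Av

namespace Model

variable {V I : Type} [Fintype V] [DecidableEq V] [Fintype I] [DecidableEq I] {N : ℕ}

lemma Av_Z (M : Model) (β : J → I × Bool ≃ V) :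
    Av (M.Z (N := N) β) = ∑ σ : V → Fin N → M.S, (∏ v, ∏ u, M.w (σ v u)) * ∏ e : J × I,
      Per (fun u => M.ph (σ (β e.1 (e.2, false)) u)) (fun u => M.ph (σ (β e.1 (e.2, true)) u)) := by
  unfold Z
  rw [Av_sum]
  refine sum_congr rfl fun σ _ => ?_
  rw [Av_mul, Av_prod (fun (e : J × I) (p : Equiv.Perm (Fin N)) => ∏ u,
    ∑ t, M.ph (σ (β e.1 (e.2, false)) u) t * M.ph (σ (β e.1 (e.2, true)) (p u)) t)]
  rfl

omit [DecidableEq J] [DecidableEq I] in
lemma rearrange {S : Type} [Fintype S] (β : J → I × Bool ≃ V) (W : S → ℝ) (B : J × I → S → ℝ) :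
    ∑ σ : V → S, (∏ v, W (σ v)) *
      ∏ e : J × I, B e (σ (β e.1 (e.2, false))) * B e (σ (β e.1 (e.2, true))) =
    ∏ v, ∑ ρ, W ρ * ∏ j, B (j, ((β j).symm v).1) ρ := by
  rw [Fintype.prod_sum]
  refine sum_congr rfl fun σ _ => ?_
  rw [prod_mul_distrib (s := (univ : Finset V)), prod_comm (s := (univ : Finset V)),
    Fintype.prod_prod_type]
  congr 1
  refine prod_congr rfl fun j _ => ?_
  rw [← Equiv.prod_comp (β j), Fintype.prod_prod_type]
  refine prod_congr rfl fun i _ => ?_
  simp [mul_comm]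

omit [DecidableEq J] in
lemma sum_fiber (M : Model) (g : J → M.T → ℝ) :
    ∑ ρ : Fin N → M.S, (∏ u, M.w (ρ u)) * ∏ j, ∏ u, ∑ t, M.ph (ρ u) t * g j t = M.F g ^ N := by
  have : M.F g ^ N = ∏ _u : Fin N, M.F g := by simp
  rw [this, F, Fintype.prod_sum]
  refine sum_congr rfl fun ρ _ => ?_
  rw [prod_mul_distrib, prod_comm (s := (univ : Finset J))]

lemma Av_Z_upper (hN : 0 < N) (M : Model) (β : J → I × Bool ≃ V) :
    Av (M.Z (N := N) β) ≤ (N + 1 : ℝ) ^ (2 * Fintype.card M.T * Fintype.card (J × I)) *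
      M.Phi J ^ (N * Fintype.card V) := by
  rw [Av_Z]
  set C : ℝ := (N + 1 : ℝ) ^ Fintype.card M.T with hC
  let B : (J × I → M.T → Fin (N + 1)) → J × I → (Fin N → M.S) → ℝ :=
    fun n e ρ => ∏ u, ∑ t, M.ph (ρ u) t * GG (n e) t
  calc _ ≤ ∑ σ : V → Fin N → M.S, (∏ v, ∏ u, M.w (σ v u)) * (C ^ Fintype.card (J × I) *
        ∑ n : J × I → M.T → Fin (N + 1),
          ∏ e : J × I, B n e (σ (β e.1 (e.2, false))) * B n e (σ (β e.1 (e.2, true)))) := by
        refine sum_le_sum fun σ _ => mul_le_mul_of_nonneg_left ?_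
          (prod_nonneg fun _ _ => prod_nonneg fun _ _ => M.hw _)
        refine (prod_le_prod (fun e _ => ?_) fun e _ =>
          Per_upper hN (fun u t => M.hph _ t) (fun u t => M.hph _ t)).trans (le_of_eq ?_)
        · exact div_nonneg (sum_nonneg fun _ _ => prod_nonneg fun _ _ => sum_nonneg fun _ _ =>
            mul_nonneg (M.hph _ _) (M.hph _ _)) (by positivity)
        · rw [prod_mul_distrib, prod_const, card_univ, Fintype.prod_sum]
    _ = C ^ Fintype.card (J × I) * ∑ n : J × I → M.T → Fin (N + 1),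
          ∑ σ : V → Fin N → M.S, (∏ v, ∏ u, M.w (σ v u)) *
          ∏ e : J × I, B n e (σ (β e.1 (e.2, false))) * B n e (σ (β e.1 (e.2, true))) := by
        rw [sum_comm, mul_sum]
        refine sum_congr rfl fun σ _ => ?_
        rw [← mul_sum]
        ring
    _ ≤ C ^ Fintype.card (J × I) * ∑ _n : J × I → M.T → Fin (N + 1),
          M.Phi J ^ (N * Fintype.card V) := by
        refine mul_le_mul_of_nonneg_left (sum_le_sum fun n _ => ?_) (by positivity)
        rw [rearrange β (fun ρ : Fin N → M.S => ∏ u, M.w (ρ u)) (B n), pow_mul, ← card_univ,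
          ← prod_const]
        have hA : ∀ v, Adm (fun j => GG (n (j, ((β j).symm v).1))) := fun v j =>
          ⟨GG_nonneg _, GG_sq _⟩
        refine prod_le_prod (fun v _ => ?_) fun v _ => ?_
        · rw [M.sum_fiber (fun j => GG (n (j, ((β j).symm v).1)))]
          exact pow_nonneg (M.F_nonneg (hA v)) _
        · rw [M.sum_fiber (fun j => GG (n (j, ((β j).symm v).1)))]
          exact pow_le_pow_left₀ (M.F_nonneg (hA v)) (M.F_le (hA v)) _
    _ = _ := by
        simp only [sum_const, card_univ, Fintype.card_pi, Fintype.card_fin, prod_const, hC,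
          nsmul_eq_mul]
        push_cast
        ring

lemma Av_Z_lower (M : Model) (β : J → I × Bool ≃ V) :
    M.Phi J ^ (N * Fintype.card V) ≤
      (N + 1 : ℝ) ^ (Fintype.card M.T * Fintype.card J * Fintype.card V) *
        Av (M.Z (N := N) β) := by
  have hg := M.gs_adm (J := J)
  let b : J → (M.T → Fin (N + 1)) → (Fin N → M.S) → ℝ :=
    fun j n ρ => bb (fun u t => M.ph (ρ u) t * M.gs J j t) n
  have hb : ∀ j n ρ, 0 ≤ b j n ρ := fun j n ρ =>
    bb_nonneg (fun u t => mul_nonneg (M.hph _ _) ((hg j).1 t)) n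
  let A : (J → M.T → Fin (N + 1)) → ℝ :=
    fun n => ∑ ρ : Fin N → M.S, (∏ u, M.w (ρ u)) * ∏ j, b j (n j) ρ
  have hA : ∑ n, A n = M.Phi J ^ N := by
    rw [Phi, ← M.sum_fiber, sum_comm]
    refine sum_congr rfl fun ρ _ => ?_
    rw [← mul_sum, ← Fintype.prod_sum (fun j n => b j n ρ)]
    simp only [b, sum_bb]
  obtain ⟨n, -, hn⟩ := exists_max_image univ A univ_nonempty
  have h1 : M.Phi J ^ N ≤ (N + 1 : ℝ) ^ (Fintype.card M.T * Fintype.card J) * A n := by
    rw [← hA]
    refine (sum_le_sum fun m hm => hn m hm).trans (le_of_eq ?_)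
    simp only [sum_const, card_univ, Fintype.card_pi, Fintype.card_fin, prod_const, nsmul_eq_mul]
    push_cast
    ring
  have h2 : A n ^ Fintype.card V ≤ Av (M.Z (N := N) β) := by
    rw [Av_Z, ← card_univ, ← prod_const]
    have := rearrange β (fun ρ : Fin N → M.S => ∏ u, M.w (ρ u)) (fun e ρ => b e.1 (n e.1) ρ)
    simp only [A]
    rw [← this]
    refine sum_le_sum fun σ _ => mul_le_mul_of_nonneg_left ?_
      (prod_nonneg fun _ _ => prod_nonneg fun _ _ => M.hw _)
    refine prod_le_prod (fun e _ => mul_nonneg (hb _ _ _) (hb _ _ _)) fun e _ => ?_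
    refine le_trans ?_ (Per_lower (fun u t => M.hph _ t) (fun u t => M.hph _ t) (hg e.1).2)
    exact single_le_sum (f := fun m => b e.1 m (σ (β e.1 (e.2, false))) *
      b e.1 m (σ (β e.1 (e.2, true)))) (fun m _ => mul_nonneg (hb _ _ _) (hb _ _ _)) (mem_univ _)
  calc _ = (M.Phi J ^ N) ^ Fintype.card V := pow_mul _ _ _
    _ ≤ ((N + 1 : ℝ) ^ (Fintype.card M.T * Fintype.card J) * A n) ^ Fintype.card V :=
        pow_le_pow_left₀ (pow_nonneg M.Phi_nonneg _) h1 _
    _ ≤ _ := by
        rw [mul_pow, ← pow_mul]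
        gcongr

end Model

end Pool.Agent.P.MP_4503fd_co
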