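import Mathlib

/-! The method of types for averages over a uniformly random permutation. -/

namespace Pool.Agent.P.MP_4503fd_co

open Finset
open scoped Nat

variable {T : Type} [Fintype T] [DecidableEq T] {N : ℕ}

def cnt (τ : Fin N → T) (t : T) : ℕ := #{u | τ u = t}

omit [Fintype T] in
lemma cnt_le (τ : Fin N → T) (t : T) : cnt τ t ≤ N := by
  simpa [cnt] using card_le_univ ({u | τ u = t} : Finset (Fin N))

def ty (τ : Fin N → T) : T → Fin (N + 1) := fun t => ⟨cnt τ t, Nat.lt_succ_of_le (cnt_le τ t)⟩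

omit [Fintype T] in
@[simp] lemma ty_val (τ : Fin N → T) (t : T) : (ty τ t : ℕ) = cnt τ t := rfl

lemma sum_cnt (τ : Fin N → T) : ∑ t, cnt τ t = N := by
  have := card_eq_sum_card_fiberwise (f := τ) (s := univ) (t := univ) (by simp)
  simpa [cnt] using this.symm

lemma prod_comp_eq (τ : Fin N → T) (p : T → ℝ) : ∏ u, p (τ u) = ∏ t, p t ^ cnt τ t := by
  rw [← prod_fiberwise (s := univ) (g := τ) (f := fun u => p (τ u))]
  refine prod_congr rfl fun t _ => ?_
  rw [prod_congr rfl (g := fun _ => p t) (fun u hu => by rw [(mem_filter.1 hu).2]), prod_const]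
  rfl

omit [Fintype T] in
lemma cnt_comp (τ : Fin N → T) (π : Equiv.Perm (Fin N)) (t : T) : cnt (τ ∘ π) t = cnt τ t := by
  unfold cnt
  exact card_bij (fun u _ => π u) (by simp) (by simp) (fun v hv => ⟨π.symm v, by simpa using hv, by simp⟩)

omit [Fintype T] in
lemma exists_perm {τ τ' : Fin N → T} (h : ty τ = ty τ') :
    ∃ π : Equiv.Perm (Fin N), τ' ∘ π = τ := by
  have e : ∀ t, {u // τ u = t} ≃ {u // τ' u = t} := fun t =>
    Fintype.equivOfCardEq (by
      have := congrArg (fun n => (n t : ℕ)) h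
      simpa [cnt, Fintype.card_subtype] using this)
  exact ⟨Equiv.ofFiberEquiv e, funext fun u => Equiv.ofFiberEquiv_map e u⟩

lemma card_perm_eq (τ τ' : Fin N → T) :
    #{π : Equiv.Perm (Fin N) | τ' ∘ π = τ} = if ty τ = ty τ' then ∏ t, (cnt τ' t)! else 0 := by
  split_ifs with h
  · obtain ⟨π0, h0⟩ := exists_perm h
    have h1 := DomMulAct.stabilizer_card τ'
    simp only [Fintype.card_subtype] at h1
    rw [show ∏ t, (cnt τ' t)! = _ from h1.symm]
    refine card_bij (fun π _ => π * π0⁻¹) ?_ ?_ ?_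
    · intro π hπ
      simp only [mem_filter, mem_univ, true_and] at hπ ⊢
      funext u
      have e1 := congrFun hπ (π0⁻¹ u)
      have e2 := congrFun h0 (π0⁻¹ u)
      simp only [Function.comp, Equiv.Perm.coe_inv, Equiv.apply_symm_apply] at e1 e2
      simp [e1, e2]
    · intro a _ b _ hab
      simpa using hab
    · intro g hg
      simp only [mem_filter, mem_univ, true_and] at hg
      refine ⟨g * π0, ?_, by simp⟩
      simp only [mem_filter, mem_univ, true_and]
      rw [← h0, Equiv.Perm.coe_mul, ← Function.comp_assoc, hg]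
  · rw [card_eq_zero, filter_eq_empty_iff]
    intro π _ hπ
    apply h
    funext t
    ext
    simp [← hπ, cnt_comp]

lemma card_class (τ' : Fin N → T) : #{τ : Fin N → T | ty τ = ty τ'} * ∏ t, (cnt τ' t)! = N ! := by
  have := card_eq_sum_card_fiberwise (f := fun π : Equiv.Perm (Fin N) => τ' ∘ π) (s := univ)
    (t := univ) (by simp)
  simp only [card_perm_eq] at this
  rw [card_univ, Fintype.card_perm, Fintype.card_fin, ← sum_filter, sum_const, smul_eq_mul] at this
  exact this.symm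

noncomputable def PP (n : T → Fin (N + 1)) : ℝ := (∏ t, ((n t : ℕ)! : ℝ)) / N !

noncomputable def bb (x : Fin N → T → ℝ) (n : T → Fin (N + 1)) : ℝ :=
  ∑ τ : Fin N → T with ty τ = n, ∏ u, x u (τ u)

noncomputable def Per (x y : Fin N → T → ℝ) : ℝ :=
  (∑ π : Equiv.Perm (Fin N), ∏ u, ∑ t, x u t * y (π u) t) / N !

omit [DecidableEq T] in
lemma PP_nonneg (n : T → Fin (N + 1)) : 0 ≤ PP n := by unfold PP; positivity

lemma bb_nonneg {x : Fin N → T → ℝ} (hx : ∀ u t, 0 ≤ x u t) (n : T → Fin (N + 1)) : 0 ≤ bb x n :=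
  sum_nonneg fun _ _ => prod_nonneg fun _ _ => hx _ _

lemma sum_bb (x : Fin N → T → ℝ) : ∑ n, bb x n = ∏ u, ∑ t, x u t := by
  unfold bb
  rw [sum_fiberwise (s := univ) (g := ty) (f := fun τ : Fin N → T => ∏ u, x u (τ u)),
    Fintype.prod_sum]

lemma bb_le {x : Fin N → T → ℝ} (hx : ∀ u t, 0 ≤ x u t) (n : T → Fin (N + 1)) :
    bb x n ≤ ∏ u, ∑ t, x u t := by
  rw [← sum_bb]
  exact single_le_sum (f := fun n => bb x n) (fun n _ => bb_nonneg hx n) (mem_univ n)

lemma bb_mul (x : Fin N → T → ℝ) (p : T → ℝ) (n : T → Fin (N + 1)) :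
    bb (fun u t => x u t * p t) n = (∏ t, p t ^ (n t : ℕ)) * bb x n := by
  unfold bb
  rw [mul_sum]
  refine sum_congr rfl fun τ hτ => ?_
  rw [prod_mul_distrib, prod_comp_eq τ p, ← (mem_filter.1 hτ).2, mul_comm]
  rfl

/-- average of a function of the permuted word -/
lemma sum_perm_comp (c : Fin N → T) (x : Fin N → T → ℝ) :
    (∑ π : Equiv.Perm (Fin N), ∏ u, x u (c (π u))) / N ! = PP (ty c) * bb x (ty c) := by
  have : ∑ π : Equiv.Perm (Fin N), ∏ u, x u (c (π u)) =
      ∑ τ : Fin N → T, (#{π : Equiv.Perm (Fin N) | c ∘ π = τ} : ℝ) * ∏ u, x u (τ u) := by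
    rw [← sum_fiberwise (s := univ) (g := fun π : Equiv.Perm (Fin N) => c ∘ π)]
    refine sum_congr rfl fun τ _ => ?_
    rw [sum_congr rfl (g := fun _ => ∏ u, x u (τ u)) (fun π hπ => by
      rw [← (mem_filter.1 hπ).2]; rfl), sum_const, nsmul_eq_mul]
  rw [this]
  simp only [card_perm_eq]
  unfold PP bb
  rw [sum_filter, mul_sum, sum_div]
  refine sum_congr rfl fun τ _ => ?_
  split_ifs with h
  · push_cast
    simp only [ty_val]
    ring
  · simp

lemma Per_eq (x y : Fin N → T → ℝ) : Per x y = ∑ n, PP n * bb x n * bb y n := by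
  have h1 : ∀ π : Equiv.Perm (Fin N), ∏ u, ∑ t, x u t * y (π u) t =
      ∑ c : Fin N → T, (∏ u, x u (c (π u))) * ∏ u, y u (c u) := by
    intro π
    rw [Fintype.prod_sum]
    refine (Fintype.sum_equiv (Equiv.arrowCongr π.symm (Equiv.refl T)) _ _ fun c => ?_).symm
    rw [prod_mul_distrib, ← Equiv.prod_comp π (fun u => y u (c u))]
    simp
  unfold Per
  simp only [h1]
  rw [sum_comm, sum_div]
  simp only [← sum_mul]
  rw [← sum_fiberwise (s := univ) (g := ty)]
  refine sum_congr rfl fun n _ => ?_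
  conv_rhs => rw [bb.eq_1 y, mul_sum]
  refine sum_congr rfl fun c hc => ?_
  rw [mul_div_right_comm, sum_perm_comp, (mem_filter.1 hc).2]

lemma PP_mul_card (τ : Fin N → T) : PP (ty τ) * #{τ' : Fin N → T | ty τ' = ty τ} = 1 := by
  have := card_class τ
  have h2 : (N ! : ℝ) ≠ 0 := by positivity
  unfold PP
  field_simp
  rw [← this]
  push_cast
  simp only [ty_val]
  ring

lemma bb_const (p : T → ℝ) (n : T → Fin (N + 1)) :
    bb (fun _ t => p t) n = (∏ t, p t ^ (n t : ℕ)) * #{τ' : Fin N → T | ty τ' = n} := by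
  have := bb_mul (fun (_ : Fin N) (_ : T) => (1 : ℝ)) p n
  simp only [one_mul] at this
  rw [this]
  simp [bb]

lemma PP_lower (τ : Fin N → T) {p : T → ℝ} (hp : ∀ t, 0 ≤ p t) (h1 : ∑ t, p t ≤ 1) :
    ∏ t, p t ^ (ty τ t : ℕ) ≤ PP (ty τ) := by
  have h2 := bb_le (x := fun (_ : Fin N) t => p t) (fun _ t => hp t) (ty τ)
  rw [bb_const] at h2
  have h3 : ∏ _u : Fin N, ∑ t, p t ≤ 1 :=
    prod_le_one (fun _ _ => sum_nonneg fun t _ => hp t) fun _ _ => h1
  have h4 := PP_mul_card τ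
  have h5 := PP_nonneg (ty τ)
  calc ∏ t, p t ^ (ty τ t : ℕ)
      = ((∏ t, p t ^ (ty τ t : ℕ)) * #{τ' : Fin N → T | ty τ' = ty τ}) * PP (ty τ) := by
        rw [mul_assoc, mul_comm _ (PP _), h4, mul_one]
    _ ≤ 1 * PP (ty τ) := by gcongr; exact h2.trans h3
    _ = _ := one_mul _

lemma pow_mul_factorial_le (n m : ℕ) : n ^ m * n ! ≤ n ^ n * m ! := by
  rcases le_total n m with h | h
  · obtain ⟨k, rfl⟩ := Nat.exists_eq_add_of_le h
    rw [pow_add, mul_assoc]
    refine Nat.mul_le_mul_left _ ?_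
    rw [mul_comm]
    exact (Nat.mul_le_mul_left _ (Nat.pow_le_pow_left (Nat.le_succ n) k)).trans
      Nat.factorial_mul_pow_le_factorial
  · obtain ⟨k, rfl⟩ := Nat.exists_eq_add_of_le h
    rw [pow_add, mul_assoc]
    refine Nat.mul_le_mul_left _ ?_
    rw [← Nat.factorial_mul_ascFactorial m k, mul_comm]
    refine Nat.mul_le_mul_right _ ?_
    exact Nat.ascFactorial_le_pow_add m k

lemma PP_upper (hN : 0 < N) (τ : Fin N → T) :
    PP (ty τ) ≤ (N + 1 : ℝ) ^ Fintype.card T * ∏ t, ((cnt τ t : ℝ) / N) ^ (ty τ t : ℕ) := by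
  have hN' : (0 : ℝ) < N := by exact_mod_cast hN
  set q : T → ℝ := fun t => (cnt τ t : ℝ) / N with hq
  have hq0 : ∀ t, 0 ≤ q t := fun t => by positivity
  have hq1 : ∑ t, q t = 1 := by
    rw [← sum_div, ← Nat.cast_sum, sum_cnt, div_self hN'.ne']
  have h1 := sum_bb (fun (_ : Fin N) t => q t)
  rw [hq1, prod_const_one] at h1
  have key : ∀ n, PP (ty τ) * bb (fun (_ : Fin N) t => q t) n ≤ ∏ t, q t ^ (ty τ t : ℕ) := by
    intro n
    by_cases hn : ∃ c : Fin N → T, ty c = n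
    · obtain ⟨c, rfl⟩ := hn
      rw [bb_const]
      have h4 := PP_mul_card c
      have hc : 0 < PP (ty c) := by unfold PP; positivity
      have h5 : PP (ty τ) * ∏ t, q t ^ (ty c t : ℕ) ≤ PP (ty c) * ∏ t, q t ^ (ty τ t : ℕ) := by
        simp only [hq, PP, ty_val, div_pow, prod_div_distrib, prod_pow_eq_pow_sum, sum_cnt]
        rw [div_mul_div_comm, div_mul_div_comm, ← prod_mul_distrib, ← prod_mul_distrib]
        refine div_le_div_of_nonneg_right (prod_le_prod (fun t _ => by positivity) fun t _ => ?_)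
          (by positivity)
        have := pow_mul_factorial_le (cnt τ t) (cnt c t)
        rw [mul_comm, mul_comm ((cnt c t)! : ℝ)]
        exact_mod_cast this
      calc PP (ty τ) * ((∏ t, q t ^ (ty c t : ℕ)) * #{τ' : Fin N → T | ty τ' = ty c})
          = (PP (ty τ) * ∏ t, q t ^ (ty c t : ℕ)) * #{τ' : Fin N → T | ty τ' = ty c} := by ring
        _ ≤ (PP (ty c) * ∏ t, q t ^ (ty τ t : ℕ)) * #{τ' : Fin N → T | ty τ' = ty c} := by gcongr
        _ = (PP (ty c) * #{τ' : Fin N → T | ty τ' = ty c}) * ∏ t, q t ^ (ty τ t : ℕ) := by ring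
        _ = _ := by rw [h4, one_mul]
    · have : bb (fun (_ : Fin N) t => q t) n = 0 := by
        unfold bb
        rw [filter_eq_empty_iff.2 (fun c _ hc => hn ⟨c, hc⟩), sum_empty]
      rw [this, mul_zero]
      exact prod_nonneg fun t _ => pow_nonneg (hq0 t) _
  calc PP (ty τ) = ∑ n, PP (ty τ) * bb (fun (_ : Fin N) t => q t) n := by
        rw [← mul_sum, h1, mul_one]
    _ ≤ ∑ _n : T → Fin (N + 1), ∏ t, q t ^ (ty τ t : ℕ) := sum_le_sum fun n _ => key n
    _ = _ := by simp [hq]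

/-- the unit vector attached to a type -/
noncomputable def GG (n : T → Fin (N + 1)) (t : T) : ℝ :=
  if ∑ s, (n s : ℕ) = N then √((n t : ℕ) / N) else 0

omit [DecidableEq T] in
lemma GG_nonneg (n : T → Fin (N + 1)) (t : T) : 0 ≤ GG n t := by
  unfold GG; split_ifs <;> positivity

omit [DecidableEq T] in
lemma GG_sq (n : T → Fin (N + 1)) : ∑ t, GG n t ^ 2 ≤ 1 := by
  unfold GG
  split_ifs with h
  · rw [sum_congr rfl (g := fun t => ((n t : ℕ) : ℝ) / N) (fun t _ => Real.sq_sqrt (by positivity)),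
      ← sum_div, ← Nat.cast_sum, h]
    exact div_self_le_one _
  · simp

lemma Per_upper (hN : 0 < N) {x y : Fin N → T → ℝ} (hx : ∀ u t, 0 ≤ x u t)
    (hy : ∀ u t, 0 ≤ y u t) :
    Per x y ≤ (N + 1 : ℝ) ^ Fintype.card T *
      ∑ n : T → Fin (N + 1), (∏ u, ∑ t, x u t * GG n t) * ∏ u, ∑ t, y u t * GG n t := by
  rw [Per_eq, mul_sum]
  refine sum_le_sum fun n _ => ?_
  have hx' : ∀ u t, 0 ≤ x u t * GG n t := fun u t => mul_nonneg (hx u t) (GG_nonneg n t)
  have hy' : ∀ u t, 0 ≤ y u t * GG n t := fun u t => mul_nonneg (hy u t) (GG_nonneg n t)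
  have b1 := bb_le hx' n
  have b2 := bb_le hy' n
  have b3 := bb_nonneg hx' n
  have b4 := bb_nonneg hy' n
  refine le_trans ?_ (mul_le_mul_of_nonneg_left (mul_le_mul b1 b2 b4 (b3.trans b1)) (by positivity))
  by_cases hn : ∃ c : Fin N → T, ty c = n
  · obtain ⟨c, rfl⟩ := hn
    rw [bb_mul, bb_mul]
    have h1 := PP_upper hN c
    have h2 : ∏ t, ((cnt c t : ℝ) / N) ^ (ty c t : ℕ) =
        (∏ t, GG (ty c) t ^ (ty c t : ℕ)) * ∏ t, GG (ty c) t ^ (ty c t : ℕ) := by
      rw [← prod_mul_distrib]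
      refine prod_congr rfl fun t _ => ?_
      rw [← mul_pow, GG, if_pos (by simp [sum_cnt]), Real.mul_self_sqrt (by positivity)]
      rfl
    rw [h2] at h1
    have := mul_le_mul_of_nonneg_right h1 (mul_nonneg (bb_nonneg hx (ty c)) (bb_nonneg hy (ty c)))
    nlinarith [this]
  · have : bb x n = 0 := by
      unfold bb
      rw [filter_eq_empty_iff.2 (fun c _ hc => hn ⟨c, hc⟩), sum_empty]
    rw [this, mul_zero, zero_mul]
    positivity

lemma Per_lower {x y : Fin N → T → ℝ} (hx : ∀ u t, 0 ≤ x u t) (hy : ∀ u t, 0 ≤ y u t)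
    {g : T → ℝ} (h1 : ∑ t, g t ^ 2 ≤ 1) :
    ∑ n : T → Fin (N + 1), bb (fun u t => x u t * g t) n * bb (fun u t => y u t * g t) n ≤
      Per x y := by
  rw [Per_eq]
  refine sum_le_sum fun n _ => ?_
  by_cases hn : ∃ c : Fin N → T, ty c = n
  · obtain ⟨c, rfl⟩ := hn
    rw [bb_mul, bb_mul]
    have h2 := PP_lower c (p := fun t => g t ^ 2) (fun t => by positivity) h1
    have h3 : ∏ t, (g t ^ 2) ^ (ty c t : ℕ) =
        (∏ t, g t ^ (ty c t : ℕ)) * ∏ t, g t ^ (ty c t : ℕ) := by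
      rw [← prod_mul_distrib]
      refine prod_congr rfl fun t _ => ?_
      rw [← mul_pow, sq]
    rw [h3] at h2
    have := mul_le_mul_of_nonneg_right h2 (mul_nonneg (bb_nonneg hx (ty c)) (bb_nonneg hy (ty c)))
    nlinarith [this]
  · have : bb x n = 0 := by
      unfold bb
      rw [filter_eq_empty_iff.2 (fun c _ hc => hn ⟨c, hc⟩), sum_empty]
    rw [bb_mul x, this]
    simp

lemma perm_comp_upper (hN : 0 < N) (c : Fin N → T) {x : Fin N → T → ℝ} (hx : ∀ u t, 0 ≤ x u t) :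
    (∑ π : Equiv.Perm (Fin N), ∏ u, x u (c (π u))) / N ! ≤
      (N + 1 : ℝ) ^ Fintype.card T * ∏ u, ∑ t, x u t * ((cnt c t : ℝ) / N) := by
  rw [sum_perm_comp]
  have h1 := PP_upper hN c
  have h2 := bb_le (x := fun u t => x u t * ((cnt c t : ℝ) / N))
    (fun u t => mul_nonneg (hx u t) (by positivity)) (ty c)
  rw [bb_mul] at h2
  calc _ ≤ ((N + 1 : ℝ) ^ Fintype.card T * ∏ t, ((cnt c t : ℝ) / N) ^ (ty c t : ℕ)) *
        bb x (ty c) := mul_le_mul_of_nonneg_right h1 (bb_nonneg hx _)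
    _ ≤ _ := by rw [mul_assoc]; gcongr

end Pool.Agent.P.MP_4503fd_co
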